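import Mathlib

/-!
# Monotone path covers of planar point sets: definitions

The definitions follow the problem file MP_9c8b61_co word by word.
-/

namespace Pool.Agent.Helper30.MonoCover

/-- The Euclidean plane. -/
abbrev Plane : Type := EuclideanSpace ℝ (Fin 2)

/-- General position: no three distinct points of `A` are collinear. -/
def GeneralPosition (A : Finset Plane) : Prop :=
  ∀ a ∈ A, ∀ b ∈ A, ∀ c ∈ A, a ≠ b → a ≠ c → b ≠ c → ¬ Collinear ℝ ({a, b, c} : Set Plane)

/-- `ξ = (v₁, …, v_t)` (the list of its vertices in order) is a monotone path with vertices in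
`A`: for some direction `u ≠ 0` one has `⟨v_{i+1} - v_i, u⟩ > 0` for all `i`. -/
def IsMonotonePath (A : Finset Plane) (ξ : List Plane) : Prop :=
  (∀ v ∈ ξ, v ∈ A) ∧ ∃ u : Plane, u ≠ 0 ∧ ξ.IsChain (fun v w => 0 < inner ℝ (w - v) u)

/-- The segment `ab` is an edge of the path `ξ`: `a` and `b` are consecutive vertices of `ξ`
(in one of the two orders). -/
def IsEdgeOf (a b : Plane) (ξ : List Plane) : Prop :=
  ∃ l r : List Plane, ξ = l ++ [a, b] ++ r ∨ ξ = l ++ [b, a] ++ r

/-- The finite family `F` of monotone paths covers the complete geometric graph `K_n[A]`. -/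
def IsCover (A : Finset Plane) (F : Finset (List Plane)) : Prop :=
  (∀ ξ ∈ F, IsMonotonePath A ξ) ∧ ∀ a ∈ A, ∀ b ∈ A, a ≠ b → ∃ ξ ∈ F, IsEdgeOf a b ξ

/-- `mc(A)`: the minimum size of a family of monotone paths covering `K_n[A]`. -/
noncomputable def mc (A : Finset Plane) : ℕ :=
  sInf {k : ℕ | ∃ F : Finset (List Plane), IsCover A F ∧ F.card = k}

/-- `A` is `α`-dense: the ratio of its largest to its smallest pairwise distance is at most
`α * √|A|`, i.e. `dist a b ≤ α √|A| · dist c d` for all pairs of distinct points of `A`. -/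
def IsDense (α : ℝ) (A : Finset Plane) : Prop :=
  ∀ a ∈ A, ∀ b ∈ A, ∀ c ∈ A, ∀ d ∈ A, a ≠ b → c ≠ d →
    dist a b ≤ α * √(A.card : ℝ) * dist c d

/-- The family of all two-vertex paths covers, so the set defining `mc` is nonempty. -/
theorem exists_isCover (A : Finset Plane) : ∃ F : Finset (List Plane), IsCover A F := by
  classical
  refine ⟨(A.offDiag).image (fun p => [p.1, p.2]), ?_, ?_⟩
  · intro ξ hξ
    rw [Finset.mem_image] at hξ
    obtain ⟨⟨a, b⟩, hab, rfl⟩ := hξ
    rw [Finset.mem_offDiag] at hab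
    obtain ⟨ha, hb, hne⟩ := hab
    simp only at ha hb hne
    refine ⟨?_, b - a, ?_, ?_⟩
    · intro v hv
      simp only [List.mem_cons, List.not_mem_nil, or_false] at hv
      rcases hv with rfl | rfl
      · exact ha
      · exact hb
    · exact sub_ne_zero.mpr (Ne.symm hne)
    · simp only [List.isChain_cons_cons, List.IsChain.singleton, and_true]
      exact real_inner_self_pos.mpr (sub_ne_zero.mpr (Ne.symm hne))
  · intro a ha b hb hab
    refine ⟨[a, b], ?_, [], [], Or.inl rfl⟩
    rw [Finset.mem_image]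
    exact ⟨(a, b), Finset.mem_offDiag.mpr ⟨ha, hb, hab⟩, rfl⟩

theorem mc_spec (A : Finset Plane) : ∃ F : Finset (List Plane), IsCover A F ∧ F.card = mc A := by
  have hne : {k : ℕ | ∃ F : Finset (List Plane), IsCover A F ∧ F.card = k}.Nonempty := by
    obtain ⟨F, hF⟩ := exists_isCover A
    exact ⟨F.card, F, hF, rfl⟩
  exact Nat.sInf_mem hne

theorem mc_le {A : Finset Plane} {F : Finset (List Plane)} (h : IsCover A F) : mc A ≤ F.card :=
  Nat.sInf_le ⟨F, h, rfl⟩

end Pool.Agent.Helper30.MonoCover
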