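import Pool.Agent.Helper30.MonoCoverTotal

/-!
# Assembling the dense sets
-/

namespace Pool.Agent.Helper30.MonoCover

/-- Choice of an `n`-point set between the `(N-1)`-grid and the `N`-grid, `N = ⌊√n⌋ + 1`; it is
`8`-dense. -/
theorem exists_dense_subset (n : ℕ) (hn : 1 ≤ n) (δ : ℝ) (hδ : 0 < δ) (g : ℤ → ℤ → ℝ) (G : ℝ)
    (hg : ∀ x y : ℤ, 0 ≤ x → x < (n.sqrt + 1 : ℕ) → 0 ≤ y → y < (n.sqrt + 1 : ℕ) → |g x y| ≤ G)
    (hsmall : δ * (8 * (n.sqrt + 1 : ℕ) ^ 2 * G) < 1) :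
    ∃ A : Finset Plane, A.card = n ∧
      (∀ v ∈ A, ∃ x y : ℤ, (0 ≤ x ∧ x < (n.sqrt + 1 : ℕ) ∧ 0 ≤ y ∧ y < (n.sqrt + 1 : ℕ)) ∧
        v = gpt (n.sqrt + 1) δ g x y) ∧
      (∀ x y : ℤ, 0 ≤ x → x < (n.sqrt + 1 : ℕ) - 1 → 0 ≤ y → y < (n.sqrt + 1 : ℕ) - 1 →
        gpt (n.sqrt + 1) δ g x y ∈ A) ∧ IsDense 8 A := by
  classical
  set N := n.sqrt + 1 with hN
  have hs1 : 1 ≤ n.sqrt := by
    rw [Nat.le_sqrt]; omega
  have hN2 : 2 ≤ N := by omega
  let f : ℕ × ℕ → Plane := fun z => gpt N δ g z.1 z.2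
  have hfinj : Set.InjOn f ((Finset.range N ×ˢ Finset.range N : Finset (ℕ × ℕ)) : Set (ℕ × ℕ)) := by
    rintro ⟨x, y⟩ hz ⟨x', y'⟩ hz' he
    simp only [Finset.coe_product, Finset.coe_range, Set.mem_prod, Set.mem_Iio] at hz hz'
    by_contra hne
    have hne' : ((x : ℤ), (y : ℤ)) ≠ ((x' : ℤ), (y' : ℤ)) := by
      intro h
      simp only [Prod.mk.injEq, Nat.cast_inj] at h
      exact hne (Prod.ext h.1 h.2)
    have := (norm_gpt_sub N δ hδ g G hsmall x y x' y' (by positivity) (by exact_mod_cast hz.1)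
      (by positivity) (by exact_mod_cast hz.2) (by positivity) (by exact_mod_cast hz'.1)
      (by positivity) (by exact_mod_cast hz'.2)
      (hg _ _ (by positivity) (by exact_mod_cast hz.1) (by positivity) (by exact_mod_cast hz.2))
      (hg _ _ (by positivity) (by exact_mod_cast hz'.1) (by positivity) (by exact_mod_cast hz'.2))
      hN2).2 hne'
    simp only [f] at he
    rw [he, dist_self] at this
    norm_num at this
  have hsub : (Finset.range (N - 1) ×ˢ Finset.range (N - 1)).image f ⊆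
      (Finset.range N ×ˢ Finset.range N).image f := by
    apply Finset.image_subset_image
    apply Finset.product_subset_product <;>
      exact Finset.range_subset_range.mpr (by omega)
  have hcard1 : ((Finset.range (N - 1) ×ˢ Finset.range (N - 1)).image f).card ≤ n := by
    refine Finset.card_image_le.trans ?_
    rw [Finset.card_product, Finset.card_range]
    have : N - 1 = n.sqrt := by omega
    rw [this]
    exact Nat.sqrt_le n
  have hcard2 : n ≤ ((Finset.range N ×ˢ Finset.range N).image f).card := by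
    rw [Finset.card_image_of_injOn hfinj, Finset.card_product, Finset.card_range]
    exact (Nat.lt_succ_sqrt n).le
  obtain ⟨A, hA1, hA2, hA3⟩ := Finset.exists_subsuperset_card_eq hsub hcard1 hcard2
  have hmemA : ∀ v ∈ A, ∃ x y : ℤ, (0 ≤ x ∧ x < (N : ℕ) ∧ 0 ≤ y ∧ y < (N : ℕ)) ∧
        v = gpt N δ g x y := by
    intro v hv
    have := hA2 hv
    rw [Finset.mem_image] at this
    obtain ⟨⟨x, y⟩, hxy, rfl⟩ := this
    rw [Finset.mem_product, Finset.mem_range, Finset.mem_range] at hxy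
    exact ⟨x, y, ⟨by positivity, by exact_mod_cast hxy.1, by positivity,
      by exact_mod_cast hxy.2⟩, rfl⟩
  refine ⟨A, hA3, hmemA, ?_, ?_⟩
  · intro x y hx hx' hy hy'
    apply hA1
    rw [Finset.mem_image]
    refine ⟨(x.toNat, y.toNat), ?_, ?_⟩
    · rw [Finset.mem_product, Finset.mem_range, Finset.mem_range]
      constructor
      · simp only; omega
      · simp only; omega
    · simp only [f]
      rw [Int.toNat_of_nonneg hx, Int.toNat_of_nonneg hy]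
  · intro a ha b hb c hc d hd hab hcd
    obtain ⟨x1, y1, ⟨h1, h2, h3, h4⟩, rfl⟩ := hmemA a ha
    obtain ⟨x2, y2, ⟨k1, k2, k3, k4⟩, rfl⟩ := hmemA b hb
    obtain ⟨x3, y3, ⟨l1, l2, l3, l4⟩, rfl⟩ := hmemA c hc
    obtain ⟨x4, y4, ⟨m1, m2, m3, m4⟩, rfl⟩ := hmemA d hd
    have e1 := (norm_gpt_sub N δ hδ g G hsmall x1 y1 x2 y2 h1 h2 h3 h4 k1 k2 k3 k4
      (hg _ _ h1 h2 h3 h4) (hg _ _ k1 k2 k3 k4) hN2).1
    have hne : (x3, y3) ≠ (x4, y4) := by
      intro h; apply hcd; simp only [Prod.mk.injEq] at h; rw [h.1, h.2]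
    have e2 := (norm_gpt_sub N δ hδ g G hsmall x3 y3 x4 y4 l1 l2 l3 l4 m1 m2 m3 m4
      (hg _ _ l1 l2 l3 l4) (hg _ _ m1 m2 m3 m4) hN2).2 hne
    rw [hA3]
    have e3 : (N : ℝ) ≤ 2 * √(n : ℝ) := by
      have q1 : ((n.sqrt : ℕ) : ℝ) ≤ √(n : ℝ) := Real.nat_sqrt_le_real_sqrt
      have q2 : (1 : ℝ) ≤ √(n : ℝ) := by
        rw [Real.one_le_sqrt]; exact_mod_cast hn
      rw [hN]; push_cast; linarith
    have hs : (0 : ℝ) ≤ √(n : ℝ) := Real.sqrt_nonneg _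
    calc dist (gpt N δ g x1 y1) (gpt N δ g x2 y2) ≤ 2 * N := e1
      _ ≤ 8 * √(n : ℝ) * (1 / 2) := by linarith
      _ ≤ 8 * √(n : ℝ) * dist (gpt N δ g x3 y3) (gpt N δ g x4 y4) :=
        mul_le_mul_of_nonneg_left e2 (by positivity)

/-- The largest power dominates. -/
theorem dominance (M C : ℝ) (hC : 0 ≤ C) (hM : 2 * C + 1 ≤ M) (c1 c2 c3 e1 e2 e3 : ℤ)
    (h1 : e1 < e3) (h2 : e2 < e3) (hc : c3 ≠ 0) (hc1 : |(c1 : ℝ)| ≤ C) (hc2 : |(c2 : ℝ)| ≤ C) :
    (c1 : ℝ) * M ^ e1 + c2 * M ^ e2 + c3 * M ^ e3 ≠ 0 := by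
  have hM1 : 1 ≤ M := by linarith
  have hM0 : 0 < M := by linarith
  have p1 : M ^ e1 ≤ M ^ (e3 - 1) := zpow_le_zpow_right₀ hM1 (by omega)
  have p2 : M ^ e2 ≤ M ^ (e3 - 1) := zpow_le_zpow_right₀ hM1 (by omega)
  have p3 : M ^ e3 = M * M ^ (e3 - 1) := by
    rw [← zpow_one_add₀ hM0.ne']; congr 1; ring
  have p4 : 0 < M ^ (e3 - 1) := zpow_pos hM0 _
  have p5 : 0 < M ^ e1 := zpow_pos hM0 _
  have p6 : 0 < M ^ e2 := zpow_pos hM0 _
  have hc3 : (1 : ℝ) ≤ |(c3 : ℝ)| := by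
    have : (1 : ℤ) ≤ |c3| := Int.one_le_abs hc
    rw [← Int.cast_abs]; exact_mod_cast this
  intro h0
  have q1 : |(c3 : ℝ) * M ^ e3| = |(c1 : ℝ) * M ^ e1 + c2 * M ^ e2| := by
    have : (c3 : ℝ) * M ^ e3 = -((c1 : ℝ) * M ^ e1 + c2 * M ^ e2) := by linarith
    rw [this, abs_neg]
  have q2 : |(c1 : ℝ) * M ^ e1 + c2 * M ^ e2| ≤ C * M ^ (e3 - 1) + C * M ^ (e3 - 1) := by
    refine (abs_add_le _ _).trans ?_
    rw [abs_mul, abs_mul, abs_of_pos p5, abs_of_pos p6]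
    apply add_le_add
    · exact mul_le_mul hc1 p1 p5.le hC
    · exact mul_le_mul hc2 p2 p6.le hC
  have q3 : M * M ^ (e3 - 1) ≤ |(c3 : ℝ) * M ^ e3| := by
    rw [abs_mul, p3, abs_of_pos (by positivity : 0 < M * M ^ (e3 - 1))]
    have : 0 < M * M ^ (e3 - 1) := by positivity
    nlinarith
  nlinarith

/-- The first-order determinants of the exponential perturbation do not vanish. -/
theorem gexp_det {N M : ℕ} (hN : 1 ≤ N) (hM : M = 4 * N ^ 2 + 1) (x1 y1 x2 y2 x3 y3 : ℤ)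
    (a1 : 0 ≤ x1) (a2 : x1 < N) (a3 : 0 ≤ y1) (a4 : y1 < N)
    (b1 : 0 ≤ x2) (b2 : x2 < N) (b3 : 0 ≤ y2) (b4 : y2 < N)
    (c1 : 0 ≤ x3) (c2 : x3 < N) (c3 : 0 ≤ y3) (c4 : y3 < N)
    (n12 : (x1, y1) ≠ (x2, y2)) (n13 : (x1, y1) ≠ (x3, y3)) (n23 : (x2, y2) ≠ (x3, y3)) :
    ((N * (x2 - x1) - (y2 - y1) : ℤ) : ℝ) * (gexp N M x3 y3 - gexp N M x1 y1) -
        ((N * (x3 - x1) - (y3 - y1) : ℤ) : ℝ) * (gexp N M x2 y2 - gexp N M x1 y1) ≠ 0 := by
  have hMr : 2 * (2 * (N : ℝ) ^ 2) + 1 ≤ M := by rw [hM]; push_cast; linarith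
  have hC : (0 : ℝ) ≤ 2 * (N : ℝ) ^ 2 := by positivity
  -- injectivity of the two linear forms
  have hlam : ∀ x y x' y' : ℤ, 0 ≤ y → y < N → 0 ≤ y' → y' < N → (x, y) ≠ (x', y') →
      (N * (x - x') - (y - y') : ℤ) ≠ 0 := by
    intro x y x' y' h1 h2 h3 h4 hne h0
    apply hne
    have hx : x = x' := by
      by_contra hxx
      rcases lt_or_gt_of_ne hxx with h | h
      · have : (N : ℤ) * (x - x') ≤ N * (-1) := mul_le_mul_of_nonneg_left (by omega) (by positivity)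
        omega
      · have : (N : ℤ) * 1 ≤ N * (x - x') := mul_le_mul_of_nonneg_left (by omega) (by positivity)
        omega
    subst hx
    have : y = y' := by
      rw [sub_self, mul_zero] at h0; omega
    rw [this]
  have hexp : ∀ x y x' y' : ℤ, 0 ≤ y → y < N → 0 ≤ y' → y' < N → (x, y) ≠ (x', y') →
      (N * x + y : ℤ) ≠ N * x' + y' := by
    intro x y x' y' h1 h2 h3 h4 hne h0
    apply hne
    have hx : x = x' := by
      by_contra hxx
      rcases lt_or_gt_of_ne hxx with h | h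
      · have : (N : ℤ) * (x - x') ≤ N * (-1) := mul_le_mul_of_nonneg_left (by omega) (by positivity)
        rw [mul_sub] at this
        omega
      · have : (N : ℤ) * 1 ≤ N * (x - x') := mul_le_mul_of_nonneg_left (by omega) (by positivity)
        rw [mul_sub] at this
        omega
    subst hx
    have : y = y' := by omega
    rw [this]
  have hbd : ∀ x y x' y' : ℤ, 0 ≤ x → x < N → 0 ≤ y → y < N → 0 ≤ x' → x' < N → 0 ≤ y' →
      y' < N → |((N * (x - x') - (y - y') : ℤ) : ℝ)| ≤ 2 * (N : ℝ) ^ 2 := by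
    intro x y x' y' h1 h2 h3 h4 h5 h6 h7 h8
    have hN' : (1 : ℤ) ≤ N := by exact_mod_cast hN
    have : |(N * (x - x') - (y - y') : ℤ)| ≤ 2 * N ^ 2 := by
      rw [abs_le]; constructor <;> nlinarith
    calc |((N * (x - x') - (y - y') : ℤ) : ℝ)|
        = ((|(N * (x - x') - (y - y') : ℤ)| : ℤ) : ℝ) := by rw [Int.cast_abs]
      _ ≤ ((2 * N ^ 2 : ℤ) : ℝ) := by exact_mod_cast this
      _ = 2 * N ^ 2 := by push_cast; ring
  have l32 := hlam x3 y3 x2 y2 c3 c4 b3 b4 n23.symm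
  have l13 := hlam x1 y1 x3 y3 a3 a4 c3 c4 n13
  have l21 := hlam x2 y2 x1 y1 b3 b4 a3 a4 n12.symm
  have e12 := hexp x1 y1 x2 y2 a3 a4 b3 b4 n12
  have e13 := hexp x1 y1 x3 y3 a3 a4 c3 c4 n13
  have e23 := hexp x2 y2 x3 y3 b3 b4 c3 c4 n23
  have k32 := hbd x3 y3 x2 y2 c1 c2 c3 c4 b1 b2 b3 b4
  have k13 := hbd x1 y1 x3 y3 a1 a2 a3 a4 c1 c2 c3 c4
  have k21 := hbd x2 y2 x1 y1 b1 b2 b3 b4 a1 a2 a3 a4
  set m1 : ℤ := N * (x3 - x2) - (y3 - y2) with hm1
  set m2 : ℤ := N * (x1 - x3) - (y1 - y3) with hm2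
  set m3 : ℤ := N * (x2 - x1) - (y2 - y1) with hm3
  have hm2' : (N * (x3 - x1) - (y3 - y1) : ℤ) = -m2 := by rw [hm2]; ring
  have hm1' : m1 = -m2 - m3 := by rw [hm1, hm2, hm3]; ring
  rw [hm2']
  have heq : (m3 : ℝ) * (gexp N M x3 y3 - gexp N M x1 y1) -
        ((-m2 : ℤ) : ℝ) * (gexp N M x2 y2 - gexp N M x1 y1) =
      (m1 : ℝ) * gexp N M x1 y1 + m2 * gexp N M x2 y2 + m3 * gexp N M x3 y3 := by
    rw [hm1']; push_cast; ring
  rw [heq]
  simp only [gexp]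
  rcases lt_trichotomy ((N : ℤ) * x1 + y1) (N * x3 + y3) with h | h | h
  · rcases lt_trichotomy ((N : ℤ) * x2 + y2) (N * x3 + y3) with h' | h' | h'
    · exact dominance M _ hC hMr m1 m2 m3 _ _ _ h h' l21 k32 k13
    · exact absurd h' e23
    · have := dominance M _ hC hMr m1 m3 m2 _ _ _ (h.trans h') h' l13 k32 k21
      intro h0
      apply this
      linarith
  · exact absurd h e13
  · rcases lt_trichotomy ((N : ℤ) * x2 + y2) (N * x1 + y1) with h' | h' | h'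
    · have := dominance M _ hC hMr m2 m3 m1 _ _ _ h' h l32 k13 k21
      intro h0
      apply this
      linarith
    · exact absurd h'.symm e12
    · have := dominance M _ hC hMr m1 m3 m2 _ _ _ h' (h.trans h') l13 k32 k21
      intro h0
      apply this
      linarith

end Pool.Agent.Helper30.MonoCover
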