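import Pool.Agent.Helper30.MonoCoverPath

/-!
# Perturbed grids

`gpt N δ g x y` is the grid point `(x, y)` moved by `δ g(x,y)` in the direction `(1, N)`.
-/

namespace Pool.Agent.Helper30.MonoCover

/-- The grid point `(x, y)` moved by `δ * g x y` in the direction `(1, N)`. -/
noncomputable def gpt (N : ℕ) (δ : ℝ) (g : ℤ → ℤ → ℝ) (x y : ℤ) : Plane :=
  !₂[(x : ℝ) + δ * g x y, (y : ℝ) + N * (δ * g x y)]

theorem gpt_zero (N : ℕ) (δ : ℝ) (g : ℤ → ℤ → ℝ) (x y : ℤ) :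
    gpt N δ g x y 0 = x + δ * g x y := by simp [gpt]

theorem gpt_one (N : ℕ) (δ : ℝ) (g : ℤ → ℤ → ℝ) (x y : ℤ) :
    gpt N δ g x y 1 = y + N * (δ * g x y) := by simp [gpt]

theorem inner_plane (v u : Plane) : inner ℝ v u = v 0 * u 0 + v 1 * u 1 := by
  simp [PiLp.inner_apply, Fin.sum_univ_two]
  ring

theorem inner_gpt (N : ℕ) (δ : ℝ) (g : ℤ → ℤ → ℝ) (x y : ℤ) (u : Plane) :
    inner ℝ (gpt N δ g x y) u = x * u 0 + y * u 1 + δ * g x y * (u 0 + N * u 1) := by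
  rw [inner_plane, gpt_zero, gpt_one]
  ring

/-- Collinear triples have zero determinant. -/
theorem det_of_collinear {a b c : Plane} (h : Collinear ℝ ({a, b, c} : Set Plane)) :
    (b 0 - a 0) * (c 1 - a 1) - (c 0 - a 0) * (b 1 - a 1) = 0 := by
  rw [collinear_iff_exists_forall_eq_smul_vadd] at h
  obtain ⟨p, v, h⟩ := h
  obtain ⟨r1, h1⟩ := h a (by simp)
  obtain ⟨r2, h2⟩ := h b (by simp)
  obtain ⟨r3, h3⟩ := h c (by simp)
  rw [h1, h2, h3]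
  simp
  ring

/-- The determinant of three perturbed grid points. -/
theorem det_gpt (N : ℕ) (δ : ℝ) (g : ℤ → ℤ → ℝ) (x1 y1 x2 y2 x3 y3 : ℤ) :
    (gpt N δ g x2 y2 0 - gpt N δ g x1 y1 0) * (gpt N δ g x3 y3 1 - gpt N δ g x1 y1 1) -
      (gpt N δ g x3 y3 0 - gpt N δ g x1 y1 0) * (gpt N δ g x2 y2 1 - gpt N δ g x1 y1 1) =
    (((x2 - x1) * (y3 - y1) - (x3 - x1) * (y2 - y1) : ℤ) : ℝ) +
      δ * (((N * (x2 - x1) - (y2 - y1) : ℤ) : ℝ) * (g x3 y3 - g x1 y1) -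
        ((N * (x3 - x1) - (y3 - y1) : ℤ) : ℝ) * (g x2 y2 - g x1 y1)) := by
  simp only [gpt_zero, gpt_one]
  push_cast
  ring

/-- General position of a perturbed grid: if the first-order determinants never vanish for
collinear triples of grid points, and `δ` is small enough. -/
theorem gp_of_det (N : ℕ) (δ : ℝ) (hδ : 0 < δ) (g : ℤ → ℤ → ℝ) (G : ℝ)
    (hg : ∀ x y : ℤ, 0 ≤ x → x < N → 0 ≤ y → y < N → |g x y| ≤ G)
    (hsmall : δ * (8 * N ^ 2 * G) < 1)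
    (hdet : ∀ x1 y1 x2 y2 x3 y3 : ℤ, 0 ≤ x1 → x1 < N → 0 ≤ y1 → y1 < N →
      0 ≤ x2 → x2 < N → 0 ≤ y2 → y2 < N → 0 ≤ x3 → x3 < N → 0 ≤ y3 → y3 < N →
      (x1, y1) ≠ (x2, y2) → (x1, y1) ≠ (x3, y3) → (x2, y2) ≠ (x3, y3) →
      (x2 - x1) * (y3 - y1) - (x3 - x1) * (y2 - y1) = 0 →
      ((N * (x2 - x1) - (y2 - y1) : ℤ) : ℝ) * (g x3 y3 - g x1 y1) -
        ((N * (x3 - x1) - (y3 - y1) : ℤ) : ℝ) * (g x2 y2 - g x1 y1) ≠ 0)
    (A : Finset Plane)
    (hA : ∀ v ∈ A, ∃ x y : ℤ, (0 ≤ x ∧ x < N ∧ 0 ≤ y ∧ y < N) ∧ v = gpt N δ g x y) :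
    GeneralPosition A := by
  intro a ha b hb c hc hab hac hbc hcol
  obtain ⟨x1, y1, ⟨h1, h1', h1'', h1'''⟩, rfl⟩ := hA a ha
  obtain ⟨x2, y2, ⟨h2, h2', h2'', h2'''⟩, rfl⟩ := hA b hb
  obtain ⟨x3, y3, ⟨h3, h3', h3'', h3'''⟩, rfl⟩ := hA c hc
  have hd := det_of_collinear hcol
  rw [det_gpt] at hd
  have n12 : (x1, y1) ≠ (x2, y2) := by
    rintro h; apply hab; simp only [Prod.mk.injEq] at h; rw [h.1, h.2]
  have n13 : (x1, y1) ≠ (x3, y3) := by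
    rintro h; apply hac; simp only [Prod.mk.injEq] at h; rw [h.1, h.2]
  have n23 : (x2, y2) ≠ (x3, y3) := by
    rintro h; apply hbc; simp only [Prod.mk.injEq] at h; rw [h.1, h.2]
  set D0 : ℤ := (x2 - x1) * (y3 - y1) - (x3 - x1) * (y2 - y1) with hD0
  by_cases h0 : D0 = 0
  · have := hdet x1 y1 x2 y2 x3 y3 h1 h1' h1'' h1''' h2 h2' h2'' h2''' h3 h3' h3'' h3'''
      n12 n13 n23 h0
    rw [h0] at hd
    simp only [Int.cast_zero, zero_add, mul_eq_zero] at hd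
    rcases hd with hd | hd
    · exact hδ.ne' hd
    · exact this hd
  · -- |D0| ≥ 1 but the other term is small
    have hD1 : (1 : ℝ) ≤ |(D0 : ℝ)| := by
      have : (1 : ℤ) ≤ |D0| := Int.one_le_abs h0
      calc (1 : ℝ) ≤ ((|D0| : ℤ) : ℝ) := by exact_mod_cast this
        _ = |(D0 : ℝ)| := by push_cast; rfl
    have b1 := hg x1 y1 h1 h1' h1'' h1'''
    have b2 := hg x2 y2 h2 h2' h2'' h2'''
    have b3 := hg x3 y3 h3 h3' h3'' h3'''
    have hN1 : (1 : ℤ) ≤ N := by omega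
    have l2 : |((N * (x2 - x1) - (y2 - y1) : ℤ) : ℝ)| ≤ 2 * N ^ 2 := by
      have : |(N * (x2 - x1) - (y2 - y1) : ℤ)| ≤ 2 * N ^ 2 := by
        rw [abs_le]; constructor <;> nlinarith
      calc |((N * (x2 - x1) - (y2 - y1) : ℤ) : ℝ)|
          = ((|(N * (x2 - x1) - (y2 - y1) : ℤ)| : ℤ) : ℝ) := by rw [Int.cast_abs]
        _ ≤ ((2 * N ^ 2 : ℤ) : ℝ) := by exact_mod_cast this
        _ = 2 * N ^ 2 := by push_cast; ring
    have l3 : |((N * (x3 - x1) - (y3 - y1) : ℤ) : ℝ)| ≤ 2 * N ^ 2 := by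
      have : |(N * (x3 - x1) - (y3 - y1) : ℤ)| ≤ 2 * N ^ 2 := by
        rw [abs_le]; constructor <;> nlinarith
      calc |((N * (x3 - x1) - (y3 - y1) : ℤ) : ℝ)|
          = ((|(N * (x3 - x1) - (y3 - y1) : ℤ)| : ℤ) : ℝ) := by rw [Int.cast_abs]
        _ ≤ ((2 * N ^ 2 : ℤ) : ℝ) := by exact_mod_cast this
        _ = 2 * N ^ 2 := by push_cast; ring
    have G0 : 0 ≤ G := le_trans (abs_nonneg _) b1
    have e3 : |g x3 y3 - g x1 y1| ≤ 2 * G := by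
      calc |g x3 y3 - g x1 y1| ≤ |g x3 y3| + |g x1 y1| := abs_sub _ _
        _ ≤ 2 * G := by linarith
    have e2 : |g x2 y2 - g x1 y1| ≤ 2 * G := by
      calc |g x2 y2 - g x1 y1| ≤ |g x2 y2| + |g x1 y1| := abs_sub _ _
        _ ≤ 2 * G := by linarith
    set u1 := ((N * (x2 - x1) - (y2 - y1) : ℤ) : ℝ)
    set u2 := ((N * (x3 - x1) - (y3 - y1) : ℤ) : ℝ)
    have f1 : |u1 * (g x3 y3 - g x1 y1)| ≤ 2 * N ^ 2 * (2 * G) := by
      rw [abs_mul]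
      exact mul_le_mul l2 e3 (abs_nonneg _) (by positivity)
    have f2 : |u2 * (g x2 y2 - g x1 y1)| ≤ 2 * N ^ 2 * (2 * G) := by
      rw [abs_mul]
      exact mul_le_mul l3 e2 (abs_nonneg _) (by positivity)
    have f3 : |u1 * (g x3 y3 - g x1 y1) - u2 * (g x2 y2 - g x1 y1)| ≤ 8 * N ^ 2 * G := by
      calc _ ≤ |u1 * (g x3 y3 - g x1 y1)| + |u2 * (g x2 y2 - g x1 y1)| := abs_sub _ _
        _ ≤ 8 * N ^ 2 * G := by linarith
    have f4 : |δ * (u1 * (g x3 y3 - g x1 y1) - u2 * (g x2 y2 - g x1 y1))| < 1 := by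
      rw [abs_mul, abs_of_pos hδ]
      exact lt_of_le_of_lt (mul_le_mul_of_nonneg_left f3 hδ.le) hsmall
    have : (D0 : ℝ) = - (δ * (u1 * (g x3 y3 - g x1 y1) - u2 * (g x2 y2 - g x1 y1))) := by
      linarith
    rw [this, abs_neg] at hD1
    linarith

/-- Distances between perturbed grid points. -/
theorem norm_gpt_sub (N : ℕ) (δ : ℝ) (hδ : 0 < δ) (g : ℤ → ℤ → ℝ) (G : ℝ)
    (hsmall : δ * (8 * N ^ 2 * G) < 1) (x y x' y' : ℤ)
    (hx : 0 ≤ x) (hx1 : x < N) (hy : 0 ≤ y) (hy1 : y < N)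
    (hx' : 0 ≤ x') (hx1' : x' < N) (hy' : 0 ≤ y') (hy1' : y' < N)
    (hg : |g x y| ≤ G) (hg' : |g x' y'| ≤ G) (hN : 2 ≤ N) :
    dist (gpt N δ g x y) (gpt N δ g x' y') ≤ 2 * N ∧
      ((x, y) ≠ (x', y') → 1 / 2 ≤ dist (gpt N δ g x y) (gpt N δ g x' y')) := by
  have hN' : (2 : ℝ) ≤ N := by exact_mod_cast hN
  have G0 : 0 ≤ G := le_trans (abs_nonneg _) hg
  set r := δ * (g x y - g x' y') with hr
  have hr1 : |r| * (4 * N ^ 2) < 1 := by
    have e1 : |g x y - g x' y'| ≤ 2 * G := by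
      calc |g x y - g x' y'| ≤ |g x y| + |g x' y'| := abs_sub _ _
        _ ≤ 2 * G := by linarith
    rw [hr, abs_mul, abs_of_pos hδ]
    have : δ * |g x y - g x' y'| * (4 * N ^ 2) ≤ δ * (2 * G) * (4 * N ^ 2) := by
      apply mul_le_mul_of_nonneg_right _ (by positivity)
      exact mul_le_mul_of_nonneg_left e1 hδ.le
    nlinarith
  have hr0 := abs_nonneg r
  have hrN : |r| * N ≤ 1 / 8 := by nlinarith
  have hr2 : |r| ≤ 1 / 16 := by nlinarith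
  have hd : dist (gpt N δ g x y) (gpt N δ g x' y') =
      √(((x - x' : ℤ) + r) ^ 2 + ((y - y' : ℤ) + N * r) ^ 2) := by
    rw [EuclideanSpace.dist_eq, Fin.sum_univ_two, Real.dist_eq, Real.dist_eq, sq_abs, sq_abs,
      gpt_zero, gpt_one, gpt_zero, gpt_one]
    congr 2
    · rw [hr]; push_cast; ring
    · rw [hr]; push_cast; ring
  have hNr : |(N : ℝ) * r| ≤ 1 / 8 := by
    rw [abs_mul, abs_of_nonneg (by positivity : (0 : ℝ) ≤ N)]
    linarith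
  obtain ⟨r1, r2⟩ := abs_le.mp hr2
  obtain ⟨r3, r4⟩ := abs_le.mp hNr
  constructor
  · rw [hd]
    apply Real.sqrt_le_iff.mpr
    constructor
    · positivity
    · have a1 : ((x - x' : ℤ) : ℝ) ≤ N - 1 := by
        have : (x - x' : ℤ) ≤ N - 1 := by omega
        exact_mod_cast this
      have a2 : -(N - 1 : ℝ) ≤ ((x - x' : ℤ) : ℝ) := by
        have : -(N - 1 : ℤ) ≤ (x - x' : ℤ) := by omega
        exact_mod_cast this
      have a3 : ((y - y' : ℤ) : ℝ) ≤ N - 1 := by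
        have : (y - y' : ℤ) ≤ N - 1 := by omega
        exact_mod_cast this
      have a4 : -(N - 1 : ℝ) ≤ ((y - y' : ℤ) : ℝ) := by
        have : -(N - 1 : ℤ) ≤ (y - y' : ℤ) := by omega
        exact_mod_cast this
      have c1 : (((x - x' : ℤ) : ℝ) + r) ^ 2 ≤ (N : ℝ) ^ 2 := by
        apply sq_le_sq'
        · linarith
        · linarith
      have c2 : (((y - y' : ℤ) : ℝ) + N * r) ^ 2 ≤ (N : ℝ) ^ 2 := by
        apply sq_le_sq'
        · linarith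
        · linarith
      nlinarith
  · intro hne
    rw [hd]
    apply Real.le_sqrt_of_sq_le
    by_cases hxx : x = x'
    · have hyy : y ≠ y' := by
        intro h; apply hne; rw [hxx, h]
      have : (1 : ℤ) ≤ |y - y'| := Int.one_le_abs (sub_ne_zero.mpr hyy)
      have h1 : (1 : ℝ) ≤ |((y - y' : ℤ) : ℝ)| := by
        rw [← Int.cast_abs]; exact_mod_cast this
      have h2 : 1 / 2 ≤ |((y - y' : ℤ) : ℝ) + N * r| := by
        have := abs_sub_abs_le_abs_sub ((y - y' : ℤ) : ℝ) (-(N * r))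
        rw [abs_neg, sub_neg_eq_add] at this
        linarith
      have h3 : (1 / 2 : ℝ) ^ 2 ≤ (((y - y' : ℤ) : ℝ) + N * r) ^ 2 := by
        rw [← sq_abs (((y - y' : ℤ) : ℝ) + N * r)]
        apply sq_le_sq'
        · linarith
        · exact h2
      nlinarith [sq_nonneg (((x - x' : ℤ) : ℝ) + r)]
    · have : (1 : ℤ) ≤ |x - x'| := Int.one_le_abs (sub_ne_zero.mpr hxx)
      have h1 : (1 : ℝ) ≤ |((x - x' : ℤ) : ℝ)| := by
        rw [← Int.cast_abs]; exact_mod_cast this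
      have h2 : 1 / 2 ≤ |((x - x' : ℤ) : ℝ) + r| := by
        have := abs_sub_abs_le_abs_sub ((x - x' : ℤ) : ℝ) (-r)
        rw [abs_neg, sub_neg_eq_add] at this
        linarith
      have h3 : (1 / 2 : ℝ) ^ 2 ≤ (((x - x' : ℤ) : ℝ) + r) ^ 2 := by
        rw [← sq_abs (((x - x' : ℤ) : ℝ) + r)]
        apply sq_le_sq'
        · linarith
        · exact h2
      nlinarith [sq_nonneg (((y - y' : ℤ) : ℝ) + N * r)]

end Pool.Agent.Helper30.MonoCover
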