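import Mathlib

/-!
# The one-line lemma

For `f t = α t + β K ^ t` on `t = 0, …, m - 1`, with `K ≥ m + 1`, a monotone path contains at most
four edges between points of the line crossing a given gap.
-/

namespace Pool.Agent.Helper30.MonoCover

/-- Shape of `t ↦ α t + β K ^ t` when `β ≥ 0`. -/
theorem exp_shape (m : ℕ) (K α β : ℝ) (hK : (m : ℝ) + 1 ≤ K) (hm : 1 ≤ m) (hβ : 0 ≤ β)
    (hne : α ≠ 0 ∨ β ≠ 0) :
    ∃ σ : ℕ, (∀ t t' : ℕ, t < t' → t' < σ → α * t' + β * K ^ t' < α * t + β * K ^ t) ∧
      (∀ t' t : ℕ, t' < t → σ < t → t < m → α * t' + β * K ^ t' < α * t + β * K ^ t) := by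
  have hm' : (1 : ℝ) ≤ m := by exact_mod_cast hm
  have hK1 : 1 < K := by linarith
  have hK0 : 0 < K := by linarith
  by_cases hα : 0 ≤ α
  · refine ⟨0, fun t t' _ h => absurd h (Nat.not_lt_zero _), ?_⟩
    intro t' t htt _ _
    have h1 : (t' : ℝ) < t := by exact_mod_cast htt
    have h2 : K ^ t' < K ^ t := pow_lt_pow_right₀ hK1 htt
    rcases lt_or_eq_of_le hα with h | h
    · have := mul_lt_mul_of_pos_left h1 h
      have := mul_le_mul_of_nonneg_left h2.le hβ
      linarith
    · have hβ' : 0 < β := by
        rcases hne with h' | h'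
        · exact absurd h.symm h'
        · exact lt_of_le_of_ne hβ (Ne.symm h')
      have := mul_lt_mul_of_pos_left h2 hβ'
      rw [← h]
      linarith
  · push Not at hα
    -- d t = α + β (K - 1) K ^ t
    have hstep : ∀ t : ℕ, (α * (t + 1 : ℕ) + β * K ^ (t + 1)) - (α * t + β * K ^ t)
        = α + β * (K - 1) * K ^ t := by
      intro t
      push_cast
      ring
    by_cases hex : ∃ t : ℕ, t < m ∧ 0 ≤ α + β * (K - 1) * K ^ t
    · classical
      obtain ⟨hτm, hτ⟩ := Nat.find_spec hex
      set τ := Nat.find hex with hτdef
      have hmin : ∀ t, t < τ → α + β * (K - 1) * K ^ t < 0 := by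
        intro t ht
        have := Nat.find_min hex ht
        push Not at this
        exact this (lt_trans ht hτm)
      have hτm' : (τ : ℝ) < m := by exact_mod_cast hτm
      -- anti on [0, τ]
      have hanti : ∀ t' t : ℕ, t < t' → t' ≤ τ → α * t' + β * K ^ t' < α * t + β * K ^ t := by
        intro t'
        induction t' with
        | zero => intro t ht; exact absurd ht (Nat.not_lt_zero _)
        | succ k ih =>
          intro t ht hk
          have hd := hmin k (by omega)
          have hs := hstep k
          rcases Nat.lt_or_ge t k with h | h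
          · have := ih t h (by omega)
            linarith
          · have : t = k := by omega
            subst this
            linarith
      have hd : ∀ t : ℕ, τ + 1 ≤ t → -α * m ≤ α + β * (K - 1) * K ^ t := by
        intro t ht
        have h1 : K ^ (τ + 1) ≤ K ^ t := pow_le_pow_right₀ hK1.le ht
        have h2 : 0 ≤ β * (K - 1) := mul_nonneg hβ (by linarith)
        have h3 : β * (K - 1) * K ^ (τ + 1) ≤ β * (K - 1) * K ^ t :=
          mul_le_mul_of_nonneg_left h1 h2
        have h4 : β * (K - 1) * K ^ (τ + 1) = K * (β * (K - 1) * K ^ τ) := by ring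
        have h5 : K * (-α) ≤ K * (β * (K - 1) * K ^ τ) :=
          mul_le_mul_of_nonneg_left (by linarith) hK0.le
        nlinarith
      have hdpos : ∀ t : ℕ, τ + 1 ≤ t → 0 < α + β * (K - 1) * K ^ t := by
        intro t ht
        have := hd t ht
        nlinarith
      have hmono : ∀ t t' : ℕ, τ + 1 ≤ t' → t' < t → α * t' + β * K ^ t' < α * t + β * K ^ t := by
        intro t
        induction t with
        | zero => intro t' _ ht; exact absurd ht (Nat.not_lt_zero _)
        | succ k ih =>
          intro t' h1 h2
          have hs := hstep k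
          rcases Nat.lt_or_ge t' k with h | h
          · have := ih t' h1 h
            have := hdpos k (by omega)
            linarith
          · have hh : t' = k := by omega
            subst hh
            have := hdpos t' (by omega)
            linarith
      refine ⟨τ + 1, ?_, ?_⟩
      · intro t t' h1 h2
        exact hanti t' t h1 (by omega)
      · intro t' t htt ht _
        by_cases h : τ + 1 ≤ t'
        · exact hmono t t' h htt
        · push Not at h
          have ht'τ : t' ≤ τ := by omega
          -- f t ≥ f (τ+2) = f (τ+1) + d (τ+1) ≥ f τ + (-α) m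
          have h1 : α * ((τ + 2 : ℕ) : ℝ) + β * K ^ (τ + 2) ≤ α * t + β * K ^ t := by
            rcases Nat.lt_or_ge (τ + 2) t with h' | h'
            · exact (hmono t (τ + 2) (by omega) h').le
            · have : t = τ + 2 := by omega
              subst this
              exact le_rfl
          have h2 := hstep (τ + 1)
          have h3 := hd (τ + 1) le_rfl
          have h4 := hstep τ
          have h5 : (t' : ℝ) ≤ τ := by exact_mod_cast ht'τ
          have h6 : K ^ t' ≤ K ^ τ := pow_le_pow_right₀ hK1.le ht'τ
          have h7 := mul_le_mul_of_nonneg_left h6 hβ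
          have h8 : (0 : ℝ) ≤ t' := Nat.cast_nonneg _
          have h9 : α * t' - α * τ < -α * m := by nlinarith
          have h10 : (τ + 1 + 1 : ℕ) = τ + 2 := rfl
          rw [h10] at h2
          linarith
    · push Not at hex
      refine ⟨m, ?_, ?_⟩
      · intro t t' h1 h2
        have hanti : ∀ t' t : ℕ, t < t' → t' < m → α * t' + β * K ^ t' < α * t + β * K ^ t := by
          intro t'
          induction t' with
          | zero => intro t ht; exact absurd ht (Nat.not_lt_zero _)
          | succ k ih =>
            intro t ht hk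
            have hd := hex k (by omega)
            have hs := hstep k
            rcases Nat.lt_or_ge t k with h | h
            · have := ih t h (by omega)
              linarith
            · have : t = k := by omega
              subst this
              linarith
        exact hanti t' t h1 h2
      · intro t' t _ h1 h2
        omega

/-- Two nondegenerate intervals with endpoints `a, b` and `c, d` have disjoint interiors. -/
def SegDisj (a b c d : ℝ) : Prop := max a b ≤ min c d ∨ max c d ≤ min a b

/-- Combinatorial form of the one-line lemma. -/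
theorem line_bound_aux (m σ a : ℕ) (f : ℕ → ℝ)
    (h1 : ∀ t t' : ℕ, t < t' → t' < σ → f t' < f t)
    (h2 : ∀ t' t : ℕ, t' < t → σ < t → t < m → f t' < f t)
    (E : Finset (ℕ × ℕ)) (hE : ∀ e ∈ E, e.1 ≤ a ∧ a < e.2 ∧ e.2 < m)
    (hnd : ∀ e ∈ E, f e.1 ≠ f e.2)
    (hd : ∀ e ∈ E, ∀ e' ∈ E, e ≠ e' → SegDisj (f e.1) (f e.2) (f e'.1) (f e'.2)) :
    E.card ≤ 4 := by
  classical
  let c : ℕ × ℕ → ℕ := fun e =>
    if e.2 < σ then 0 else if σ < e.2 then 1 else if f e.1 < f e.2 then 2 else 3
  have hc : ∀ e ∈ E, c e ∈ Finset.range 4 := by
    intro e _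
    simp only [c, Finset.mem_range]
    split_ifs <;> norm_num
  have hinj : Set.InjOn c (E : Set (ℕ × ℕ)) := by
    intro e he e' he' hcc
    by_contra hne
    have he := Finset.mem_coe.mp he
    have he' := Finset.mem_coe.mp he'
    obtain ⟨a1, a2, a3⟩ := hE e he
    obtain ⟨b1, b2, b3⟩ := hE e' he'
    have n1 := hnd e he
    have n2 := hnd e' he'
    have hdd := hd e he e' he' hne
    simp only [SegDisj, max_le_iff, le_min_iff] at hdd
    simp only [c] at hcc
    by_cases k1 : e.2 < σ
    · by_cases k2 : e'.2 < σ
      · have s1 := h1 e.1 e.2 (by omega) k1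
        have s2 := h1 e'.1 e'.2 (by omega) k2
        have s3 := h1 e.1 e'.2 (by omega) k2
        have s4 := h1 e'.1 e.2 (by omega) k1
        rcases hdd with h | h
        · linarith [h.1.2, h.2.2]
        · linarith [h.1.2, h.2.2]
      · simp only [k1, k2, if_true, if_false] at hcc
        split_ifs at hcc <;> omega
    · by_cases k3 : σ < e.2
      · by_cases k2 : e'.2 < σ
        · simp [k1, k2, k3] at hcc
        · by_cases k4 : σ < e'.2
          · have s1 := h2 e.1 e.2 (by omega) k3 a3
            have s2 := h2 e'.1 e'.2 (by omega) k4 b3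
            have s3 := h2 e.1 e'.2 (by omega) k4 b3
            have s4 := h2 e'.1 e.2 (by omega) k3 a3
            rcases hdd with h | h
            · linarith [h.1.2, h.2.1]
            · linarith [h.1.1, h.2.1]
          · simp only [k1, k2, k3, k4, if_true, if_false] at hcc
            split_ifs at hcc <;> omega
      · have q1 : e.2 = σ := by omega
        by_cases k2 : e'.2 < σ
        · simp only [k1, k2, k3, if_true, if_false] at hcc
          split_ifs at hcc <;> omega
        · by_cases k4 : σ < e'.2
          · simp only [k1, k2, k3, k4, if_true, if_false] at hcc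
            split_ifs at hcc <;> omega
          · have q2 : e'.2 = σ := by omega
            simp only [k1, k2, k3, k4, if_false] at hcc
            rw [q1] at n1 hdd hcc
            rw [q2] at n2 hdd hcc
            by_cases k5 : f e.1 < f σ
            · by_cases k6 : f e'.1 < f σ
              · rcases hdd with h | h
                · linarith [h.2.1]
                · linarith [h.1.2, h.2.2, h.1.1, h.2.1]
              · simp [k5, k6] at hcc
            · by_cases k6 : f e'.1 < f σ
              · simp [k5, k6] at hcc
              · have k5' : f σ < f e.1 := lt_of_le_of_ne (not_lt.mp k5) (Ne.symm n1)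
                have k6' : f σ < f e'.1 := lt_of_le_of_ne (not_lt.mp k6) (Ne.symm n2)
                rcases hdd with h | h
                · linarith [h.1.2, h.2.2, h.1.1, h.2.1]
                · linarith [h.1.2, h.2.2, h.1.1, h.2.1]
  have := Finset.card_le_card_of_injOn c hc hinj
  simpa using this

/-- The one-line lemma. -/
theorem line_bound (m a : ℕ) (K c α β : ℝ) (hK : (m : ℝ) + 1 ≤ K) (hm : 1 ≤ m)
    (f : ℕ → ℝ) (hf : ∀ t : ℕ, f t = c + α * t + β * K ^ t)
    (E : Finset (ℕ × ℕ)) (hE : ∀ e ∈ E, e.1 ≤ a ∧ a < e.2 ∧ e.2 < m)
    (hnd : ∀ e ∈ E, f e.1 ≠ f e.2)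
    (hd : ∀ e ∈ E, ∀ e' ∈ E, e ≠ e' → SegDisj (f e.1) (f e.2) (f e'.1) (f e'.2)) :
    E.card ≤ 4 := by
  rcases E.eq_empty_or_nonempty with hemp | ⟨e0, he0⟩
  · simp [hemp]
  have hne : α ≠ 0 ∨ β ≠ 0 := by
    by_contra hcon
    push Not at hcon
    apply hnd e0 he0
    rw [hf, hf, hcon.1, hcon.2]
    ring
  rcases le_total 0 β with hβ | hβ
  · obtain ⟨σ, s1, s2⟩ := exp_shape m K α β hK hm hβ hne
    refine line_bound_aux m σ a f ?_ ?_ E hE hnd hd
    · intro t t' h h'
      have := s1 t t' h h'
      rw [hf, hf]; linarith
    · intro t' t h h' h''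
      have := s2 t' t h h' h''
      rw [hf, hf]; linarith
  · have hne' : (-α) ≠ 0 ∨ (-β) ≠ 0 := by
      rcases hne with h | h
      · exact Or.inl (neg_ne_zero.mpr h)
      · exact Or.inr (neg_ne_zero.mpr h)
    obtain ⟨σ, s1, s2⟩ := exp_shape m K (-α) (-β) hK hm (by linarith) hne'
    refine line_bound_aux m σ a (fun t => - f t) ?_ ?_ E hE ?_ ?_
    · intro t t' h h'
      have := s1 t t' h h'
      simp only [hf]; linarith
    · intro t' t h h' h''
      have := s2 t' t h h' h''
      simp only [hf]; linarith
    · intro e he h
      exact hnd e he (neg_injective h)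
    · intro e he e' he' hee
      have := hd e he e' he' hee
      simp only [SegDisj, max_le_iff, le_min_iff] at this ⊢
      simp only [neg_le_neg_iff]
      tauto

end Pool.Agent.Helper30.MonoCover
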