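import Mathlib

/-!
# A lower bound for the sum of `φ(p) / p ^ 2`
-/

namespace Pool.Agent.Helper30.MonoCover

theorem sum_inv_sq_le_aux (n : ℕ) :
    ∑ k ∈ Finset.Icc 1 (n + 1), (1 : ℝ) / (k : ℝ) ^ 2 ≤ 2 - 1 / ((n : ℝ) + 1) := by
  induction n with
  | zero => simp; norm_num
  | succ n ih =>
    rw [Finset.sum_Icc_succ_top (by omega)]
    push_cast
    have h1 : (0 : ℝ) < (n : ℝ) + 1 := by positivity
    have h2 : (0 : ℝ) < (n : ℝ) + 1 + 1 := by positivity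
    have h3 : (1 : ℝ) / ((n : ℝ) + 1 + 1) ^ 2 ≤ 1 / ((n : ℝ) + 1) - 1 / ((n : ℝ) + 1 + 1) := by
      rw [div_sub_div _ _ h1.ne' h2.ne', div_le_div_iff₀ (by positivity) (by positivity)]
      nlinarith
    linarith

theorem sum_inv_sq_le (L : ℕ) : ∑ k ∈ Finset.Icc 1 L, (1 : ℝ) / (k : ℝ) ^ 2 ≤ 2 := by
  rcases L with _ | n
  · simp
  · have := sum_inv_sq_le_aux n
    have : 0 ≤ 1 / ((n : ℝ) + 1) := by positivity
    linarith

theorem log_le_sum (L : ℕ) : Real.log (L + 1) ≤ ∑ k ∈ Finset.Icc 1 L, (1 : ℝ) / (k : ℝ) := by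
  have h := log_add_one_le_harmonic L
  have h2 : ((harmonic L : ℚ) : ℝ) = ∑ k ∈ Finset.Icc 1 L, (1 : ℝ) / (k : ℝ) := by
    rw [harmonic_eq_sum_Icc]
    push_cast
    simp [one_div]
  rw [h2] at h
  push_cast at h
  exact h

/-- `∑_{p ≤ L} φ(p)/p² ≥ log (L + 1) / 2`. -/
theorem log_le_sum_totient (L : ℕ) :
    Real.log (L + 1) ≤ 2 * ∑ p ∈ Finset.Icc 1 L, (Nat.totient p : ℝ) / (p : ℝ) ^ 2 := by
  classical
  refine (log_le_sum L).trans ?_
  have h1 : ∀ r ∈ Finset.Icc 1 L, (1 : ℝ) / (r : ℝ) =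
      ∑ x ∈ r.divisorsAntidiagonal, (Nat.totient x.1 : ℝ) / ((x.1 : ℝ) * (x.2 : ℝ)) ^ 2 := by
    intro r hr
    rw [Finset.mem_Icc] at hr
    have hr0 : (r : ℝ) ≠ 0 := by
      have : r ≠ 0 := by omega
      exact_mod_cast this
    have h2 : ∀ x ∈ r.divisorsAntidiagonal,
        (Nat.totient x.1 : ℝ) / ((x.1 : ℝ) * (x.2 : ℝ)) ^ 2 = (Nat.totient x.1 : ℝ) / (r : ℝ) ^ 2 := by
      intro x hx
      rw [Nat.mem_divisorsAntidiagonal] at hx
      rw [← hx.1]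
      push_cast
      rfl
    rw [Finset.sum_congr rfl h2, ← Finset.sum_div]
    have h3 : ∑ x ∈ r.divisorsAntidiagonal, (Nat.totient x.1 : ℝ) = r := by
      have := Nat.sum_divisorsAntidiagonal (n := r) (fun a _ => (Nat.totient a : ℝ))
      rw [this]
      exact_mod_cast Nat.sum_totient r
    rw [h3]
    field_simp
  rw [Finset.sum_congr rfl h1, Finset.sum_sigma']
  have h4 : ∑ x ∈ (Finset.Icc 1 L).sigma (fun r => r.divisorsAntidiagonal),
      (Nat.totient x.2.1 : ℝ) / ((x.2.1 : ℝ) * (x.2.2 : ℝ)) ^ 2 =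
      ∑ y ∈ ((Finset.Icc 1 L).sigma (fun r => r.divisorsAntidiagonal)).image (fun x => x.2),
      (Nat.totient y.1 : ℝ) / ((y.1 : ℝ) * (y.2 : ℝ)) ^ 2 := by
    rw [Finset.sum_image]
    rintro ⟨r, x⟩ hx ⟨r', x'⟩ hx' h
    simp only [Finset.coe_sigma, Set.mem_sigma_iff, Finset.mem_coe,
      Nat.mem_divisorsAntidiagonal] at hx hx' h
    have : r = r' := by rw [← hx.2.1, ← hx'.2.1, h]
    subst this
    subst h
    rfl
  rw [h4]
  have h5 : ((Finset.Icc 1 L).sigma (fun r => r.divisorsAntidiagonal)).image (fun x => x.2) ⊆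
      Finset.Icc 1 L ×ˢ Finset.Icc 1 L := by
    intro y hy
    rw [Finset.mem_image] at hy
    obtain ⟨⟨r, x⟩, hx, rfl⟩ := hy
    simp only [Finset.mem_sigma, Nat.mem_divisorsAntidiagonal, Finset.mem_Icc] at hx
    simp only [Finset.mem_product, Finset.mem_Icc]
    obtain ⟨⟨hr1, hr2⟩, hx1, hx2⟩ := hx
    have hx1' : x.1 ≠ 0 := by rintro h; rw [h] at hx1; omega
    have hx2' : x.2 ≠ 0 := by rintro h; rw [h] at hx1; omega
    have : x.1 ≤ r := by
      rw [← hx1]; exact Nat.le_mul_of_pos_right _ (Nat.pos_of_ne_zero hx2')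
    have : x.2 ≤ r := by
      rw [← hx1]; exact Nat.le_mul_of_pos_left _ (Nat.pos_of_ne_zero hx1')
    omega
  refine (Finset.sum_le_sum_of_subset_of_nonneg h5 (fun _ _ _ => by positivity)).trans ?_
  rw [Finset.sum_product, Finset.mul_sum]
  apply Finset.sum_le_sum
  intro p hp
  have : ∀ k ∈ Finset.Icc 1 L, (Nat.totient p : ℝ) / ((p : ℝ) * (k : ℝ)) ^ 2 =
      (Nat.totient p : ℝ) / (p : ℝ) ^ 2 * (1 / (k : ℝ) ^ 2) := by
    intro k _
    rw [mul_pow, div_mul_div_comm, mul_one]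
  rw [Finset.sum_congr rfl this, ← Finset.mul_sum]
  have h6 := sum_inv_sq_le L
  have h7 : (0 : ℝ) ≤ (Nat.totient p : ℝ) / (p : ℝ) ^ 2 := by positivity
  nlinarith

end Pool.Agent.Helper30.MonoCover
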