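import Pool.Agent.Helper30.MonoCoverGrid
import Pool.Agent.Helper30.MonoCoverSum

/-!
# The lower bound for exponentially perturbed grids
-/

namespace Pool.Agent.Helper30.MonoCover

/-- The exponential perturbation. -/
noncomputable def gexp (N M : ℕ) (x y : ℤ) : ℝ := (M : ℝ) ^ ((N : ℤ) * x + y)

/-- The slopes `(p, q)`, `0 ≤ q < p ≤ L`, `gcd (p, q) = 1`. -/
def slopes (L : ℕ) : Finset (ℕ × ℕ) :=
  ((Finset.Icc 1 L) ×ˢ (Finset.range L)).filter (fun s => s.2 < s.1 ∧ Nat.Coprime s.1 s.2)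

theorem mem_slopes {L : ℕ} {s : ℕ × ℕ} :
    s ∈ slopes L ↔ (1 ≤ s.1 ∧ s.1 ≤ L) ∧ s.2 < s.1 ∧ Nat.Coprime s.1 s.2 := by
  simp only [slopes, Finset.mem_filter, Finset.mem_product, Finset.mem_Icc, Finset.mem_range]
  constructor
  · rintro ⟨⟨h1, h2⟩, h3, h4⟩; exact ⟨h1, h3, h4⟩
  · rintro ⟨h1, h3, h4⟩; exact ⟨⟨h1, by omega⟩, h3, h4⟩

/-- Number of steps from `x < L` to reach `[2L, 3L)`. -/
def steps (L : ℕ) (p x i : ℕ) : ℕ := (2 * L - x + p - 1) / p + i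

theorem steps_spec {L p x i : ℕ} (hp : 1 ≤ p) (hx : x < L) (hi : i < L / p) :
    2 * L ≤ x + steps L p x i * p ∧ x + steps L p x i * p < 3 * L := by
  have h1 : (2 * L - x + p - 1) / p * p ≤ 2 * L - x + p - 1 := Nat.div_mul_le_self _ _
  have h2 : 2 * L - x + p - 1 < (2 * L - x + p - 1) / p * p + p := by
    have := Nat.lt_div_mul_add (a := 2 * L - x + p - 1) (b := p) (by omega)
    exact this
  have h3 : L / p * p ≤ L := Nat.div_mul_le_self _ _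
  have h4 : (i + 1) * p ≤ L / p * p := Nat.mul_le_mul_right p hi
  have h5 : steps L p x i * p = (2 * L - x + p - 1) / p * p + i * p := by
    rw [steps, Nat.add_mul]
  rw [h5]
  have h6 : (i + 1) * p = i * p + p := by ring
  constructor
  · have : 0 ≤ i * p := Nat.zero_le _
    omega
  · omega

/-- Indices of the long edges: `⟨(p, q), (x, y, i)⟩`. -/
def longEdges (L : ℕ) : Finset (Σ _ : ℕ × ℕ, ℕ × ℕ × ℕ) :=
  (slopes L).sigma (fun s => Finset.range L ×ˢ Finset.range L ×ˢ Finset.range (L / s.1))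

theorem mem_longEdges {L : ℕ} {b : Σ _ : ℕ × ℕ, ℕ × ℕ × ℕ} :
    b ∈ longEdges L ↔ ((1 ≤ b.1.1 ∧ b.1.1 ≤ L) ∧ b.1.2 < b.1.1 ∧ Nat.Coprime b.1.1 b.1.2) ∧
      b.2.1 < L ∧ b.2.2.1 < L ∧ b.2.2.2 < L / b.1.1 := by
  simp only [longEdges, Finset.mem_sigma, mem_slopes, Finset.mem_product, Finset.mem_range]

/-- The `j` with `P' = P + j (p, q)`. -/
def jOf (L : ℕ) (b : Σ _ : ℕ × ℕ, ℕ × ℕ × ℕ) : ℕ := steps L b.1.1 b.2.1 b.2.2.2

/-- First endpoint of a long edge. -/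
noncomputable def eA (N M : ℕ) (δ : ℝ) (b : Σ _ : ℕ × ℕ, ℕ × ℕ × ℕ) : Plane :=
  gpt N δ (gexp N M) b.2.1 b.2.2.1

/-- Second endpoint of a long edge. -/
noncomputable def eB (N M L : ℕ) (δ : ℝ) (b : Σ _ : ℕ × ℕ, ℕ × ℕ × ℕ) : Plane :=
  gpt N δ (gexp N M) (b.2.1 + jOf L b * b.1.1 : ℤ) (b.2.2.1 + jOf L b * b.1.2 : ℤ)

/-- Two different slopes cannot both be nearly orthogonal to a unit vector. -/
theorem two_slopes {L : ℕ} {s s' : ℕ × ℕ} (hs : s ∈ slopes L) (hs' : s' ∈ slopes L)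
    (hne : s ≠ s') (u : Plane) (hu : ‖u‖ = 1)
    (h : |(s.1 : ℝ) * u 0 + s.2 * u 1| < 1 / (4 * L))
    (h' : |(s'.1 : ℝ) * u 0 + s'.2 * u 1| < 1 / (4 * L)) : False := by
  rw [mem_slopes] at hs hs'
  obtain ⟨⟨a1, a2⟩, a3, a4⟩ := hs
  obtain ⟨⟨b1, b2⟩, b3, b4⟩ := hs'
  have hL : (1 : ℝ) ≤ L := by
    have : 1 ≤ L := by omega
    exact_mod_cast this
  -- determinant
  have hdet : (s.1 * s'.2 : ℤ) - s'.1 * s.2 ≠ 0 := by
    intro h0
    have h1 : s.1 * s'.2 = s'.1 * s.2 := by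
      have : (s.1 * s'.2 : ℤ) = s'.1 * s.2 := by omega
      exact_mod_cast this
    have d1 : s.1 ∣ s'.1 := by
      have : s.1 ∣ s'.1 * s.2 := ⟨s'.2, h1.symm⟩
      exact a4.dvd_of_dvd_mul_right this
    have d2 : s'.1 ∣ s.1 := by
      have : s'.1 ∣ s.1 * s'.2 := ⟨s.2, h1⟩
      exact b4.dvd_of_dvd_mul_right this
    have e1 : s.1 = s'.1 := Nat.dvd_antisymm d1 d2
    have e2 : s.2 = s'.2 := by
      rw [e1] at h1
      exact (Nat.eq_of_mul_eq_mul_left (by omega) h1).symm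
    exact hne (Prod.ext e1 e2)
  set D : ℤ := (s.1 * s'.2 : ℤ) - s'.1 * s.2 with hD
  have hD1 : (1 : ℝ) ≤ |(D : ℝ)| := by
    have : (1 : ℤ) ≤ |D| := Int.one_le_abs hdet
    rw [← Int.cast_abs]; exact_mod_cast this
  set α := (s.1 : ℝ) * u 0 + s.2 * u 1 with hα
  set α' := (s'.1 : ℝ) * u 0 + s'.2 * u 1 with hα'
  have hDr : (D : ℝ) = s.1 * s'.2 - s'.1 * s.2 := by rw [hD]; push_cast; ring
  have i1 : (D : ℝ) * u 0 = α * s'.2 - α' * s.2 := by rw [hDr, hα, hα']; ring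
  have i2 : (D : ℝ) * u 1 = α' * s.1 - α * s'.1 := by rw [hDr, hα, hα']; ring
  have c1 : (s.1 : ℝ) ≤ L := by exact_mod_cast a2
  have c2 : (s.2 : ℝ) ≤ L := by
    have : s.2 ≤ L := by omega
    exact_mod_cast this
  have c3 : (s'.1 : ℝ) ≤ L := by exact_mod_cast b2
  have c4 : (s'.2 : ℝ) ≤ L := by
    have : s'.2 ≤ L := by omega
    exact_mod_cast this
  have hmul : 1 / (4 * (L : ℝ)) * L = 1 / 4 := by field_simp
  have key : ∀ x y t : ℝ, |x| < 1 / (4 * L) → |y| < 1 / (4 * L) → ∀ m n : ℝ, 0 ≤ m → m ≤ L →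
      0 ≤ n → n ≤ L → (D : ℝ) * t = x * m - y * n → |t| ≤ 1 / 2 := by
    intro x y t hx hy m n hm hm' hn hn' he
    have k1 : |x * m - y * n| ≤ 1 / 2 := by
      calc |x * m - y * n| ≤ |x * m| + |y * n| := abs_sub _ _
        _ = |x| * m + |y| * n := by rw [abs_mul, abs_mul, abs_of_nonneg hm, abs_of_nonneg hn]
        _ ≤ 1 / (4 * L) * L + 1 / (4 * L) * L := by
            apply add_le_add
            · exact mul_le_mul hx.le hm' hm (by positivity)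
            · exact mul_le_mul hy.le hn' hn (by positivity)
        _ = 1 / 2 := by rw [hmul]; norm_num
    rw [← he, abs_mul] at k1
    have := abs_nonneg t
    nlinarith
  have j1 := key α α' (u 0) h h' s'.2 s.2 (by positivity) c4 (by positivity) c2 i1
  have j2 := key α' α (u 1) h' h s.1 s'.1 (by positivity) c1 (by positivity) c3 i2
  have hn : ‖u‖ ^ 2 = (u 0) ^ 2 + (u 1) ^ 2 := by
    rw [EuclideanSpace.norm_eq, Real.sq_sqrt (by positivity), Fin.sum_univ_two,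
      Real.norm_eq_abs, Real.norm_eq_abs, sq_abs, sq_abs]
  rw [hu] at hn
  have j1' := sq_le_sq' (abs_le.mp j1).1 (abs_le.mp j1).2
  have j2' := sq_le_sq' (abs_le.mp j2).1 (abs_le.mp j2).2
  norm_num at hn j1' j2'
  linarith

end Pool.Agent.Helper30.MonoCover
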