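import Pool.Agent.Helper30.MonoCoverDefs
import Pool.Agent.Helper30.MonoCoverLine

/-!
# Facts about monotone paths
-/

namespace Pool.Agent.Helper30.MonoCover

/-- A monotone path has a monotonicity direction of norm one. -/
theorem IsMonotonePath.unit_dir {A : Finset Plane} {ξ : List Plane} (h : IsMonotonePath A ξ) :
    ∃ u : Plane, ‖u‖ = 1 ∧ ξ.IsChain (fun v w => inner ℝ v u < inner ℝ w u) := by
  obtain ⟨_, u, hu, hc⟩ := h
  have hu' : 0 < ‖u‖ := norm_pos_iff.mpr hu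
  refine ⟨(‖u‖)⁻¹ • u, ?_, hc.imp ?_⟩
  · rw [norm_smul, norm_inv, norm_norm, inv_mul_cancel₀ hu'.ne']
  · intro v w hvw
    rw [inner_sub_left] at hvw
    rw [real_inner_smul_right, real_inner_smul_right]
    exact mul_lt_mul_of_pos_left (by linarith) (inv_pos.mpr hu')

/-- In a path monotone with respect to `u`, the values `⟨v_i, u⟩` are increasing. -/
theorem chain_lt {ξ : List Plane} {u : Plane}
    (h : ξ.IsChain (fun v w => inner ℝ v u < inner ℝ w u)) {i j : ℕ} (hij : i < j)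
    (hj : j < ξ.length) : inner ℝ (ξ.getD i 0) u < inner ℝ (ξ.getD j 0) u := by
  have : Trans (fun v w : Plane => inner ℝ v u < inner ℝ w u)
      (fun v w : Plane => inner ℝ v u < inner ℝ w u)
      (fun v w : Plane => inner ℝ v u < inner ℝ w u) := ⟨fun h1 h2 => lt_trans h1 h2⟩
  rw [List.isChain_iff_pairwise, List.pairwise_iff_getElem] at h
  have hi : i < ξ.length := lt_trans hij hj
  rw [List.getD_eq_getElem _ _ hi, List.getD_eq_getElem _ _ hj]
  exact h i j hi hj hij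

theorem chain_le {ξ : List Plane} {u : Plane}
    (h : ξ.IsChain (fun v w => inner ℝ v u < inner ℝ w u)) {i j : ℕ} (hij : i ≤ j)
    (hj : j < ξ.length) : inner ℝ (ξ.getD i 0) u ≤ inner ℝ (ξ.getD j 0) u := by
  rcases Nat.lt_or_eq_of_le hij with h' | h'
  · exact (chain_lt h h' hj).le
  · rw [h']

/-- Edges of a path are pairs of vertices with consecutive indices. -/
theorem IsEdgeOf.exists_index {a b : Plane} {ξ : List Plane} (h : IsEdgeOf a b ξ) :
    ∃ i : ℕ, i + 1 < ξ.length ∧ ((a = ξ.getD i 0 ∧ b = ξ.getD (i + 1) 0) ∨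
      (b = ξ.getD i 0 ∧ a = ξ.getD (i + 1) 0)) := by
  obtain ⟨l, r, h | h⟩ := h
  · refine ⟨l.length, ?_, Or.inl ⟨?_, ?_⟩⟩
    · rw [h]; simp
    · rw [h]; simp [List.getD_eq_getElem?_getD]
    · rw [h]; simp [List.getD_eq_getElem?_getD]
  · refine ⟨l.length, ?_, Or.inr ⟨?_, ?_⟩⟩
    · rw [h]; simp
    · rw [h]; simp [List.getD_eq_getElem?_getD]
    · rw [h]; simp [List.getD_eq_getElem?_getD]

/-- Different edges of a monotone path project to non-overlapping nondegenerate intervals. -/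
theorem edges_disj {ξ : List Plane} {u : Plane}
    (h : ξ.IsChain (fun v w => inner ℝ v u < inner ℝ w u)) {a b c d : Plane}
    (hab : IsEdgeOf a b ξ) (hcd : IsEdgeOf c d ξ) (hne : ¬ ((a = c ∧ b = d) ∨ (a = d ∧ b = c))) :
    SegDisj (inner ℝ a u) (inner ℝ b u) (inner ℝ c u) (inner ℝ d u) := by
  obtain ⟨i, hi, hi'⟩ := hab.exists_index
  obtain ⟨j, hj, hj'⟩ := hcd.exists_index
  have hlt1 := chain_lt h (Nat.lt_succ_self i) hi
  have hlt2 := chain_lt h (Nat.lt_succ_self j) hj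
  rcases lt_trichotomy i j with hij | hij | hij
  · left
    have := chain_le h (show i + 1 ≤ j from hij) (by omega)
    simp only [max_le_iff, le_min_iff]
    rcases hi' with ⟨rfl, rfl⟩ | ⟨rfl, rfl⟩ <;> rcases hj' with ⟨rfl, rfl⟩ | ⟨rfl, rfl⟩ <;>
      refine ⟨⟨?_, ?_⟩, ?_, ?_⟩ <;> linarith
  · exfalso
    apply hne
    subst hij
    rcases hi' with ⟨rfl, rfl⟩ | ⟨rfl, rfl⟩ <;> rcases hj' with ⟨rfl, rfl⟩ | ⟨rfl, rfl⟩ <;> simp
  · right
    have := chain_le h (show j + 1 ≤ i from hij) (by omega)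
    simp only [max_le_iff, le_min_iff]
    rcases hi' with ⟨rfl, rfl⟩ | ⟨rfl, rfl⟩ <;> rcases hj' with ⟨rfl, rfl⟩ | ⟨rfl, rfl⟩ <;>
      refine ⟨⟨?_, ?_⟩, ?_, ?_⟩ <;> linarith

theorem edge_ne {ξ : List Plane} {u : Plane}
    (h : ξ.IsChain (fun v w => inner ℝ v u < inner ℝ w u)) {a b : Plane}
    (hab : IsEdgeOf a b ξ) : inner ℝ a u ≠ inner ℝ b u := by
  obtain ⟨i, hi, hi'⟩ := hab.exists_index
  have hlt1 := chain_lt h (Nat.lt_succ_self i) hi
  rcases hi' with ⟨rfl, rfl⟩ | ⟨rfl, rfl⟩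
  · exact hlt1.ne
  · exact hlt1.ne'

/-- The total projected length of distinct edges of a monotone path is at most the range of the
projection. -/
theorem sum_edges_le {ι : Type} {A : Finset Plane} {ξ : List Plane} {u : Plane}
    (hA : ∀ v ∈ ξ, v ∈ A)
    (h : ξ.IsChain (fun v w => inner ℝ v u < inner ℝ w u)) (T : Finset ι) (a b : ι → Plane)
    (hT : ∀ i ∈ T, IsEdgeOf (a i) (b i) ξ)
    (hinj : ∀ i ∈ T, ∀ j ∈ T, ((a i = a j ∧ b i = b j) ∨ (a i = b j ∧ b i = a j)) → i = j)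
    (R : ℝ) (hR0 : 0 ≤ R) (hR : ∀ v ∈ A, ∀ w ∈ A, inner ℝ v u - inner ℝ w u ≤ R) :
    ∑ i ∈ T, |inner ℝ (b i) u - inner ℝ (a i) u| ≤ R := by
  classical
  have hidx : ∀ i ∈ T, ∃ k : ℕ, k + 1 < ξ.length ∧
      ((a i = ξ.getD k 0 ∧ b i = ξ.getD (k + 1) 0) ∨
      (b i = ξ.getD k 0 ∧ a i = ξ.getD (k + 1) 0)) := fun i hi => (hT i hi).exists_index
  choose! k hk1 hk2 using hidx
  set x : ℕ → ℝ := fun i => inner ℝ (ξ.getD i 0) u with hx
  have hkinj : Set.InjOn k (T : Set ι) := by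
    intro i hi j hj hij
    have hi := Finset.mem_coe.mp hi
    have hj := Finset.mem_coe.mp hj
    apply hinj i hi j hj
    have e1 := hk2 i hi
    have e2 := hk2 j hj
    rw [hij] at e1
    rcases e1 with ⟨p1, p2⟩ | ⟨p1, p2⟩ <;> rcases e2 with ⟨q1, q2⟩ | ⟨q1, q2⟩ <;>
      rw [p1, p2, q1, q2] <;> simp
  have hterm : ∀ i ∈ T, |inner ℝ (b i) u - inner ℝ (a i) u| = x (k i + 1) - x (k i) := by
    intro i hi
    have hlt := chain_lt h (Nat.lt_succ_self (k i)) (hk1 i hi)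
    rcases hk2 i hi with ⟨p1, p2⟩ | ⟨p1, p2⟩
    · rw [p1, p2, abs_of_pos (by simpa using hlt)]
    · rw [p1, p2, abs_sub_comm, abs_of_pos (by simpa using hlt)]
  rw [Finset.sum_congr rfl hterm]
  have hsum : ∑ i ∈ T, (x (k i + 1) - x (k i)) = ∑ j ∈ T.image k, (x (j + 1) - x j) := by
    rw [Finset.sum_image hkinj]
  rw [hsum]
  have hsub : T.image k ⊆ Finset.range (ξ.length - 1) := by
    intro j hj
    rw [Finset.mem_image] at hj
    obtain ⟨i, hi, rfl⟩ := hj
    have := hk1 i hi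
    rw [Finset.mem_range]
    omega
  have hle : ∑ j ∈ T.image k, (x (j + 1) - x j) ≤
      ∑ j ∈ Finset.range (ξ.length - 1), (x (j + 1) - x j) := by
    apply Finset.sum_le_sum_of_subset_of_nonneg hsub
    intro j hj _
    rw [Finset.mem_range] at hj
    have := chain_lt h (Nat.lt_succ_self j) (by omega)
    simp only [hx]
    linarith
  refine hle.trans ?_
  rw [Finset.sum_range_sub]
  rcases Nat.eq_zero_or_pos ξ.length with h0 | h0
  · rw [h0]; simpa using hR0
  · have m1 : ξ.getD (ξ.length - 1) 0 ∈ A := by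
      apply hA
      rw [List.getD_eq_getElem _ _ (by omega : ξ.length - 1 < ξ.length)]
      exact List.getElem_mem _
    have m2 : ξ.getD 0 0 ∈ A := by
      apply hA
      rw [List.getD_eq_getElem _ _ h0]
      exact List.getElem_mem _
    exact hR _ m1 _ m2

end Pool.Agent.Helper30.MonoCover
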