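import Pool.Agent.Helper30.MonoCoverWeight

/-!
# Total weight: the lower bound `mc A ≥ c L ^ 2 log L`
-/

namespace Pool.Agent.Helper30.MonoCover

theorem gexp_pos {N M : ℕ} (hM : 1 ≤ M) (x y : ℤ) : 0 < gexp N M x y := by
  have : (0 : ℝ) < M := by exact_mod_cast hM
  exact zpow_pos this _

theorem gexp_le {N M : ℕ} (hM : 1 ≤ M) {x y : ℤ} (_hx0 : 0 ≤ x) (hx : x < N) (_hy0 : 0 ≤ y)
    (hy : y < N) : |gexp N M x y| ≤ (M : ℝ) ^ (N ^ 2) := by
  rw [abs_of_pos (gexp_pos hM x y)]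
  have hM' : (1 : ℝ) ≤ M := by exact_mod_cast hM
  unfold gexp
  rw [← zpow_natCast]
  apply zpow_le_zpow_right₀ hM'
  push_cast
  nlinarith

/-- Coordinates of the long edges. -/
theorem long_coords {L : ℕ} {b : Σ _ : ℕ × ℕ, ℕ × ℕ × ℕ} (hb : b ∈ longEdges L) :
    2 * L ≤ b.2.1 + jOf L b * b.1.1 ∧ b.2.1 + jOf L b * b.1.1 < 3 * L ∧
      b.2.2.1 + jOf L b * b.1.2 + 1 < 4 * L := by
  rw [mem_longEdges] at hb
  obtain ⟨⟨⟨h1, h2⟩, h3, h4⟩, h5, h6, h7⟩ := hb
  have hst := steps_spec (i := b.2.2.2) h1 h5 h7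
  have hj : jOf L b = steps L b.1.1 b.2.1 b.2.2.2 := rfl
  rw [← hj] at hst
  refine ⟨hst.1, hst.2, ?_⟩
  have : jOf L b * b.1.2 ≤ jOf L b * b.1.1 := Nat.mul_le_mul_left _ h3.le
  omega

/-- Injectivity of the parametrisation of the long edges by (unordered) pairs of grid points. -/
theorem long_inj {L : ℕ} {b b' : Σ _ : ℕ × ℕ, ℕ × ℕ × ℕ} (hb : b ∈ longEdges L)
    (hb' : b' ∈ longEdges L) (hx : b.2.1 = b'.2.1) (hy : b.2.2.1 = b'.2.2.1)
    (hX : b.2.1 + jOf L b * b.1.1 = b'.2.1 + jOf L b' * b'.1.1)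
    (hY : b.2.2.1 + jOf L b * b.1.2 = b'.2.2.1 + jOf L b' * b'.1.2) : b = b' := by
  have hc := long_coords hb
  have hc' := long_coords hb'
  obtain ⟨⟨p, q⟩, ⟨x, y, i⟩⟩ := b
  obtain ⟨⟨p', q'⟩, ⟨x', y', i'⟩⟩ := b'
  rw [mem_longEdges] at hb hb'
  obtain ⟨⟨⟨h1, h2⟩, h3, h4⟩, h5, h6, h7⟩ := hb
  obtain ⟨⟨⟨h1', h2'⟩, h3', h4'⟩, h5', h6', h7'⟩ := hb'
  simp only at *
  subst hx
  subst hy
  set j := jOf L ⟨(p, q), (x, y, i)⟩ with hj
  set j' := jOf L ⟨(p', q'), (x, y, i')⟩ with hj'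
  have hX' : j * p = j' * p' := by omega
  have hY' : j * q = j' * q' := by omega
  have hg : j = j' := by
    have e1 : Nat.gcd (j * p) (j * q) = j := by rw [Nat.gcd_mul_left, h4.gcd_eq_one, mul_one]
    have e2 : Nat.gcd (j' * p') (j' * q') = j' := by
      rw [Nat.gcd_mul_left, h4'.gcd_eq_one, mul_one]
    rw [← e1, hX', hY', e2]
  have hjpos : 0 < j := by
    rcases Nat.eq_zero_or_pos j with h | h
    · rw [h] at hc; omega
    · exact h
  rw [← hg] at hX' hY'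
  have hp : p = p' := Nat.eq_of_mul_eq_mul_left hjpos hX'
  have hq : q = q' := Nat.eq_of_mul_eq_mul_left hjpos hY'
  subst hp
  subst hq
  have hi : i = i' := by
    have : jOf L ⟨(p, q), (x, y, i)⟩ = jOf L ⟨(p, q), (x, y, i')⟩ := hg
    simp only [jOf, steps] at this
    omega
  subst hi
  rfl

/-- The parameters are chosen so that the perturbation is tiny. -/
structure Params (N L M : ℕ) (δ : ℝ) : Prop where
  hL : 1 ≤ L
  hNL : 4 * L + 1 ≤ N
  hNL' : N ≤ 8 * L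
  hM : M = 4 * N ^ 2 + 1
  hδ : δ = 1 / (16 * N ^ 3 * (M : ℝ) ^ (N ^ 2))

namespace Params

variable {N L M : ℕ} {δ : ℝ}

theorem N_pos (P : Params N L M δ) : (5 : ℕ) ≤ N := by
  have := P.hL; have := P.hNL; omega

theorem M_pos (P : Params N L M δ) : 1 ≤ M := by rw [P.hM]; omega

theorem M_ge (P : Params N L M δ) : 3 * L + 1 ≤ M := by
  have h1 := P.hNL
  have h2 := P.N_pos
  rw [P.hM]; nlinarith

theorem G_pos (P : Params N L M δ) : (0 : ℝ) < (M : ℝ) ^ (N ^ 2) := by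
  have : (0 : ℝ) < M := by exact_mod_cast P.M_pos
  positivity

theorem δ_pos (P : Params N L M δ) : 0 < δ := by
  rw [P.hδ]
  have h1 := P.G_pos
  have h2 : (0 : ℝ) < N := by
    have := P.N_pos
    have : 0 < N := by omega
    exact_mod_cast this
  positivity

theorem δG (P : Params N L M δ) : δ * (M : ℝ) ^ (N ^ 2) = 1 / (16 * (N : ℝ) ^ 3) := by
  rw [P.hδ]
  have h1 := P.G_pos
  have h2 : (0 : ℝ) < N := by
    have := P.N_pos
    have : 0 < N := by omega
    exact_mod_cast this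
  field_simp

theorem small (P : Params N L M δ) : δ * (8 * N ^ 2 * (M : ℝ) ^ (N ^ 2)) < 1 := by
  have h := P.δG
  have h2 : (5 : ℝ) ≤ N := by exact_mod_cast P.N_pos
  have : δ * (8 * N ^ 2 * (M : ℝ) ^ (N ^ 2)) = 1 / (2 * (N : ℝ)) := by
    calc δ * (8 * N ^ 2 * (M : ℝ) ^ (N ^ 2)) = 8 * N ^ 2 * (δ * (M : ℝ) ^ (N ^ 2)) := by ring
      _ = 1 / (2 * (N : ℝ)) := by
        rw [h]; field_simp; norm_num
  rw [this, div_lt_one (by positivity)]
  linarith

end Params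

/-- Nonexceptional edges: their weight is controlled by their projected length. -/
theorem weight_le_length {N L M : ℕ} {δ : ℝ} (P : Params N L M δ) (u : Plane) (hu : ‖u‖ = 1)
    {b : Σ _ : ℕ × ℕ, ℕ × ℕ × ℕ} (hb : b ∈ longEdges L)
    (hα : 1 / (4 * (L : ℝ)) ≤ |(b.1.1 : ℝ) * u 0 + b.1.2 * u 1|) :
    1 / ((L : ℝ) * b.1.1) ≤ 8 / L * |inner ℝ (eB N M L δ b) u - inner ℝ (eA N M δ b) u| := by
  have hc := long_coords hb
  have hb' := hb
  rw [mem_longEdges] at hb'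
  obtain ⟨⟨⟨h1, h2⟩, h3, h4⟩, h5, h6, h7⟩ := hb'
  have hN := P.N_pos
  have hL1 : (1 : ℝ) ≤ L := by exact_mod_cast P.hL
  have hp1 : (1 : ℝ) ≤ b.1.1 := by exact_mod_cast h1
  have hpL : (b.1.1 : ℝ) ≤ L := by exact_mod_cast h2
  have hN5 : (5 : ℝ) ≤ N := by exact_mod_cast hN
  have hNL : 4 * (L : ℝ) + 1 ≤ N := by exact_mod_cast P.hNL
  set j := jOf L b with hj
  set α := (b.1.1 : ℝ) * u 0 + b.1.2 * u 1 with hαdef
  set g := gexp N M b.2.1 b.2.2.1 with hg
  set g' := gexp N M (b.2.1 + j * b.1.1 : ℤ) (b.2.2.1 + j * b.1.2 : ℤ) with hg'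
  have hdiff : inner ℝ (eB N M L δ b) u - inner ℝ (eA N M δ b) u =
      j * α + δ * (g' - g) * (u 0 + N * u 1) := by
    rw [eA, eB, inner_gpt, inner_gpt, hαdef, hg', hg, hj]
    push_cast
    ring
  -- size of the error
  have hM1 := P.M_pos
  have hNL2 := P.hNL
  have e1 : |g| ≤ (M : ℝ) ^ (N ^ 2) := by
    apply gexp_le hM1 <;> omega
  have hcx : (b.2.1 + j * b.1.1 : ℤ) < 3 * L := by exact_mod_cast hc.2.1
  have hcy : (b.2.2.1 + j * b.1.2 : ℤ) + 1 < 4 * L := by exact_mod_cast hc.2.2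
  have e2 : |g'| ≤ (M : ℝ) ^ (N ^ 2) := by
    apply gexp_le hM1
    · positivity
    · omega
    · positivity
    · omega
  have e3 : |g' - g| ≤ 2 * (M : ℝ) ^ (N ^ 2) := by
    calc |g' - g| ≤ |g'| + |g| := abs_sub _ _
      _ ≤ _ := by linarith
  have hn : ‖u‖ ^ 2 = (u 0) ^ 2 + (u 1) ^ 2 := by
    rw [EuclideanSpace.norm_eq, Real.sq_sqrt (by positivity), Fin.sum_univ_two,
      Real.norm_eq_abs, Real.norm_eq_abs, sq_abs, sq_abs]
  rw [hu] at hn
  have u0 : |u 0| ≤ 1 := by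
    rw [abs_le]; constructor <;> nlinarith [sq_nonneg (u 1)]
  have u1 : |u 1| ≤ 1 := by
    rw [abs_le]; constructor <;> nlinarith [sq_nonneg (u 0)]
  have e4 : |u 0 + N * u 1| ≤ 2 * N := by
    calc |u 0 + N * u 1| ≤ |u 0| + |N * u 1| := abs_add_le _ _
      _ = |u 0| + N * |u 1| := by rw [abs_mul, abs_of_nonneg (by positivity : (0:ℝ) ≤ N)]
      _ ≤ 2 * N := by nlinarith
  have hδ := P.δ_pos
  have e5 : |δ * (g' - g) * (u 0 + N * u 1)| ≤ 1 / (8 * L) := by
    rw [abs_mul, abs_mul, abs_of_pos hδ]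
    calc δ * |g' - g| * |u 0 + N * u 1| ≤ δ * (2 * (M : ℝ) ^ (N ^ 2)) * (2 * N) := by
          apply mul_le_mul _ e4 (abs_nonneg _)
          · have := P.G_pos; positivity
          · exact mul_le_mul_of_nonneg_left e3 hδ.le
      _ = 4 * N * (δ * (M : ℝ) ^ (N ^ 2)) := by ring
      _ = 1 / (4 * (N : ℝ) ^ 2) := by rw [P.δG]; field_simp; norm_num
      _ ≤ 1 / (8 * L) := by
          apply div_le_div_of_nonneg_left (by norm_num) (by positivity)
          nlinarith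
  -- j ≥ L / p
  have hjp : (L : ℝ) ≤ j * b.1.1 := by
    have : L ≤ j * b.1.1 := by
      have := hc.1
      omega
    exact_mod_cast this
  have hαpos : 0 < |α| := lt_of_lt_of_le (by positivity) hα
  -- multiply everything by p
  have hmain : 1 / (8 * (b.1.1 : ℝ)) ≤
      |inner ℝ (eB N M L δ b) u - inner ℝ (eA N M δ b) u| := by
    rw [hdiff]
    have f1 : |(j : ℝ) * α| - |δ * (g' - g) * (u 0 + N * u 1)| ≤
        |j * α + δ * (g' - g) * (u 0 + N * u 1)| := by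
      have := abs_sub_abs_le_abs_sub ((j : ℝ) * α) (-(δ * (g' - g) * (u 0 + N * u 1)))
      rw [abs_neg, sub_neg_eq_add] at this
      exact this
    have f2 : |(j : ℝ) * α| = j * |α| := by
      rw [abs_mul, abs_of_nonneg (by positivity : (0:ℝ) ≤ j)]
    have f3 : 1 / (4 * (b.1.1 : ℝ)) ≤ j * |α| := by
      have g1 : (j : ℝ) * (1 / (4 * L)) ≤ j * |α| :=
        mul_le_mul_of_nonneg_left hα (by positivity)
      have g2 : 1 / (4 * (b.1.1 : ℝ)) ≤ j * (1 / (4 * L)) := by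
        rw [mul_one_div, div_le_div_iff₀ (by positivity) (by positivity)]
        linarith [hjp]
      linarith
    have f4 : 1 / (8 * (L : ℝ)) ≤ 1 / (8 * (b.1.1 : ℝ)) := by
      apply div_le_div_of_nonneg_left (by norm_num) (by positivity)
      linarith
    have f5 : 1 / (4 * (b.1.1 : ℝ)) = 1 / (8 * (b.1.1 : ℝ)) + 1 / (8 * (b.1.1 : ℝ)) := by
      field_simp; norm_num
    linarith
  calc 1 / ((L : ℝ) * b.1.1) = 8 / L * (1 / (8 * (b.1.1 : ℝ))) := by field_simp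
    _ ≤ _ := mul_le_mul_of_nonneg_left hmain (by positivity)

/-- A set of unordered-pair-distinct long edges. -/
theorem long_gpt_inj {N L M : ℕ} {δ : ℝ} (P : Params N L M δ)
    {b b' : Σ _ : ℕ × ℕ, ℕ × ℕ × ℕ} (hb : b ∈ longEdges L) (hb' : b' ∈ longEdges L)
    (h : (eA N M δ b = eA N M δ b' ∧ eB N M L δ b = eB N M L δ b') ∨
      (eA N M δ b = eB N M L δ b' ∧ eB N M L δ b = eA N M δ b')) : b = b' := by
  have hM1 := P.M_pos
  have hNL2 := P.hNL
  have hN := P.N_pos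
  have inj : ∀ x y x' y' : ℤ, 0 ≤ x → x < N → 0 ≤ y → y < N → 0 ≤ x' → x' < N → 0 ≤ y' →
      y' < N → gpt N δ (gexp N M) x y = gpt N δ (gexp N M) x' y' → x = x' ∧ y = y' := by
    intro x y x' y' h1 h2 h3 h4 h1' h2' h3' h4' he
    by_contra hne
    have hne' : (x, y) ≠ (x', y') := by
      intro h; simp only [Prod.mk.injEq] at h; exact hne h
    have := (norm_gpt_sub N δ P.δ_pos (gexp N M) _ P.small x y x' y' h1 h2 h3 h4 h1' h2' h3' h4'
      (gexp_le hM1 h1 h2 h3 h4) (gexp_le hM1 h1' h2' h3' h4') (by omega)).2 hne'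
    rw [he, dist_self] at this
    norm_num at this
  have hc := long_coords hb
  have hc' := long_coords hb'
  have m := mem_longEdges.mp hb
  have m' := mem_longEdges.mp hb'
  have q1 : (b.2.1 + jOf L b * b.1.1 : ℤ) < 3 * L := by exact_mod_cast hc.2.1
  have q2 : (b.2.2.1 + jOf L b * b.1.2 : ℤ) + 1 < 4 * L := by exact_mod_cast hc.2.2
  have q1' : (b'.2.1 + jOf L b' * b'.1.1 : ℤ) < 3 * L := by exact_mod_cast hc'.2.1
  have q2' : (b'.2.2.1 + jOf L b' * b'.1.2 : ℤ) + 1 < 4 * L := by exact_mod_cast hc'.2.2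
  rcases h with ⟨e1, e2⟩ | ⟨e1, e2⟩
  · have a1 := inj _ _ _ _ (by positivity) (by omega) (by positivity) (by omega)
      (by positivity) (by omega) (by positivity) (by omega) e1
    have a2 := inj _ _ _ _ (by positivity) (by omega) (by positivity) (by omega)
      (by positivity) (by omega) (by positivity) (by omega) e2
    apply long_inj hb hb'
    · exact_mod_cast a1.1
    · exact_mod_cast a1.2
    · exact_mod_cast a2.1
    · exact_mod_cast a2.2
  · exfalso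
    have a1 := inj _ _ _ _ (by positivity) (by omega) (by positivity) (by omega)
      (by positivity) (by omega) (by positivity) (by omega) e1
    have a3 : b.2.1 = b'.2.1 + jOf L b' * b'.1.1 := by exact_mod_cast a1.1
    omega

/-- The weight of one monotone path is at most `136`. -/
theorem path_weight_le {N L M : ℕ} {δ : ℝ} (P : Params N L M δ) {A : Finset Plane}
    (hA : ∀ v ∈ A, ∃ x y : ℤ, (0 ≤ x ∧ x < N ∧ 0 ≤ y ∧ y < N) ∧ v = gpt N δ (gexp N M) x y)
    {ξ : List Plane} (hξ : IsMonotonePath A ξ) (T : Finset (Σ _ : ℕ × ℕ, ℕ × ℕ × ℕ))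
    (hTL : T ⊆ longEdges L) (hTe : ∀ b ∈ T, IsEdgeOf (eA N M δ b) (eB N M L δ b) ξ) :
    ∑ b ∈ T, 1 / ((L : ℝ) * b.1.1) ≤ 136 := by
  classical
  obtain ⟨u, hu, hc⟩ := hξ.unit_dir
  have hL1 : (1 : ℝ) ≤ L := by exact_mod_cast P.hL
  have hinj : ∀ b ∈ T, ∀ b' ∈ T, ((eA N M δ b = eA N M δ b' ∧ eB N M L δ b = eB N M L δ b') ∨
      (eA N M δ b = eB N M L δ b' ∧ eB N M L δ b = eA N M δ b')) → b = b' :=
    fun b hb b' hb' h => long_gpt_inj P (hTL hb) (hTL hb') h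
  rw [← Finset.sum_filter_add_sum_filter_not T
    (fun b => |(b.1.1 : ℝ) * u 0 + b.1.2 * u 1| < 1 / (4 * (L : ℝ)))]
  have hexc : ∑ b ∈ T.filter (fun b => |(b.1.1 : ℝ) * u 0 + b.1.2 * u 1| < 1 / (4 * (L : ℝ))),
      1 / ((L : ℝ) * b.1.1) ≤ 8 := by
    set T1 := T.filter (fun b => |(b.1.1 : ℝ) * u 0 + b.1.2 * u 1| < 1 / (4 * (L : ℝ))) with hT1
    rcases T1.eq_empty_or_nonempty with hemp | ⟨b0, hb0⟩
    · rw [hemp]; simp
    · have hb0' := (Finset.mem_filter.mp hb0)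
      have hslope : ∀ b ∈ T1, b.1 = b0.1 := by
        intro b hb
        have hb' := (Finset.mem_filter.mp hb)
        by_contra hne
        exact two_slopes (mem_slopes.mpr (mem_longEdges.mp (hTL hb'.1)).1)
          (mem_slopes.mpr (mem_longEdges.mp (hTL hb0'.1)).1) hne u hu hb'.2 hb0'.2
      have hsub : T1 ⊆ T := Finset.filter_subset _ _
      have hcard := card_slope_le (N := N) (M := M) δ P.hL P.M_ge (by have := P.N_pos; omega) hc
        b0.1 T1 (hsub.trans hTL) hslope (fun b hb => hTe b (hsub hb))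
        (fun b hb b' hb' h => hinj b (hsub hb) b' (hsub hb') h)
      have hp1 : 1 ≤ b0.1.1 := (mem_longEdges.mp (hTL hb0'.1)).1.1.1
      have hp : (1 : ℝ) ≤ b0.1.1 := by exact_mod_cast hp1
      have hterm : ∀ b ∈ T1, 1 / ((L : ℝ) * b.1.1) = 1 / ((L : ℝ) * b0.1.1) := by
        intro b hb; rw [hslope b hb]
      rw [Finset.sum_congr rfl hterm, Finset.sum_const, nsmul_eq_mul]
      have hcard' : (T1.card : ℝ) ≤ 8 * (L * b0.1.1) := by exact_mod_cast hcard
      rw [mul_one_div, div_le_iff₀ (by positivity)]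
      linarith
  have hnon : ∑ b ∈ T.filter (fun b => ¬ |(b.1.1 : ℝ) * u 0 + b.1.2 * u 1| < 1 / (4 * (L : ℝ))),
      1 / ((L : ℝ) * b.1.1) ≤ 128 := by
    set T2 := T.filter (fun b => ¬ |(b.1.1 : ℝ) * u 0 + b.1.2 * u 1| < 1 / (4 * (L : ℝ)))
      with hT2
    have hsub : T2 ⊆ T := Finset.filter_subset _ _
    have h1 : ∑ b ∈ T2, 1 / ((L : ℝ) * b.1.1) ≤
        ∑ b ∈ T2, 8 / L * |inner ℝ (eB N M L δ b) u - inner ℝ (eA N M δ b) u| := by
      apply Finset.sum_le_sum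
      intro b hb
      have hb' := Finset.mem_filter.mp hb
      exact weight_le_length P u hu (hTL hb'.1) (not_lt.mp hb'.2)
    rw [← Finset.mul_sum] at h1
    have hR : ∀ v ∈ A, ∀ w ∈ A, inner ℝ v u - inner ℝ w u ≤ 2 * (N : ℝ) := by
      intro v hv w hw
      obtain ⟨x, y, ⟨h1, h2, h3, h4⟩, rfl⟩ := hA v hv
      obtain ⟨x', y', ⟨h1', h2', h3', h4'⟩, rfl⟩ := hA w hw
      have hM1 := P.M_pos
      have hd := (norm_gpt_sub N δ P.δ_pos (gexp N M) _ P.small x y x' y' h1 h2 h3 h4 h1' h2'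
        h3' h4' (gexp_le hM1 h1 h2 h3 h4) (gexp_le hM1 h1' h2' h3' h4')
        (by have := P.N_pos; omega)).1
      rw [← inner_sub_left]
      refine (real_inner_le_norm _ _).trans ?_
      rw [hu, mul_one, ← dist_eq_norm]
      exact hd
    have h2 := sum_edges_le hξ.1 hc T2 (eA N M δ) (eB N M L δ) (fun b hb => hTe b (hsub hb))
      (fun b hb b' hb' h => hinj b (hsub hb) b' (hsub hb') h) (2 * (N : ℝ)) (by positivity) hR
    have hNL : (N : ℝ) ≤ 8 * L := by exact_mod_cast P.hNL'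
    calc ∑ b ∈ T2, 1 / ((L : ℝ) * b.1.1)
        ≤ 8 / L * ∑ b ∈ T2, |inner ℝ (eB N M L δ b) u - inner ℝ (eA N M δ b) u| := h1
      _ ≤ 8 / L * (2 * N) := mul_le_mul_of_nonneg_left h2 (by positivity)
      _ ≤ 128 := by
        rw [div_mul_eq_mul_div, div_le_iff₀ (by positivity)]
        linarith
  linarith

/-- Main lower bound in terms of `L`. -/
theorem mc_ge {N L M : ℕ} {δ : ℝ} (P : Params N L M δ) {A : Finset Plane}
    (hA : ∀ v ∈ A, ∃ x y : ℤ, (0 ≤ x ∧ x < N ∧ 0 ≤ y ∧ y < N) ∧ v = gpt N δ (gexp N M) x y)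
    (hA' : ∀ x y : ℤ, 0 ≤ x → x < N - 1 → 0 ≤ y → y < N - 1 → gpt N δ (gexp N M) x y ∈ A) :
    (L : ℝ) ^ 2 * Real.log (L + 1) / 4 ≤ 136 * (mc A : ℝ) := by
  classical
  obtain ⟨F, hF, hFc⟩ := mc_spec A
  rw [← hFc]
  have hL1 : (1 : ℝ) ≤ L := by exact_mod_cast P.hL
  have hL1' := P.hL
  have hNL := P.hNL
  have hM1 := P.M_pos
  -- every long edge is covered
  have hcov : ∀ b ∈ longEdges L, ∃ ξ ∈ F, IsEdgeOf (eA N M δ b) (eB N M L δ b) ξ := by
    intro b hb
    have hc := long_coords hb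
    have m := mem_longEdges.mp hb
    have q1 : (b.2.1 + jOf L b * b.1.1 : ℤ) < 3 * L := by exact_mod_cast hc.2.1
    have q2 : (b.2.2.1 + jOf L b * b.1.2 : ℤ) + 1 < 4 * L := by exact_mod_cast hc.2.2
    have q3 : (2 * L : ℤ) ≤ (b.2.1 + jOf L b * b.1.1 : ℤ) := by exact_mod_cast hc.1
    apply hF.2
    · exact hA' _ _ (by positivity) (by omega) (by positivity) (by omega)
    · exact hA' _ _ (by positivity) (by omega) (by positivity) (by omega)
    · intro he
      have hne : ((b.2.1 : ℤ), (b.2.2.1 : ℤ)) ≠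
          ((b.2.1 + jOf L b * b.1.1 : ℤ), (b.2.2.1 + jOf L b * b.1.2 : ℤ)) := by
        intro h
        simp only [Prod.mk.injEq] at h
        omega
      have := (norm_gpt_sub N δ P.δ_pos (gexp N M) _ P.small b.2.1 b.2.2.1
        (b.2.1 + jOf L b * b.1.1 : ℤ) (b.2.2.1 + jOf L b * b.1.2 : ℤ)
        (by positivity) (by omega) (by positivity) (by omega)
        (by positivity) (by omega) (by positivity) (by omega)
        (gexp_le hM1 (by positivity) (by omega) (by positivity) (by omega))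
        (gexp_le hM1 (by positivity) (by omega) (by positivity) (by omega)) (by omega)).2 hne
      rw [eA, eB] at he
      rw [he, dist_self] at this
      norm_num at this
  -- double counting
  have h1 : ∑ b ∈ longEdges L, 1 / ((L : ℝ) * b.1.1) ≤ ∑ ξ ∈ F,
      ∑ b ∈ (longEdges L).filter (fun b => IsEdgeOf (eA N M δ b) (eB N M L δ b) ξ),
        1 / ((L : ℝ) * b.1.1) := by
    simp_rw [Finset.sum_filter]
    rw [Finset.sum_comm]
    apply Finset.sum_le_sum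
    intro b hb
    obtain ⟨ξ, hξF, hξ⟩ := hcov b hb
    have hpos : (0 : ℝ) ≤ 1 / ((L : ℝ) * b.1.1) := by positivity
    calc 1 / ((L : ℝ) * b.1.1)
        = (if IsEdgeOf (eA N M δ b) (eB N M L δ b) ξ then 1 / ((L : ℝ) * b.1.1) else 0) := by
          rw [if_pos hξ]
      _ ≤ _ := by
          apply Finset.single_le_sum (f := fun ξ =>
            if IsEdgeOf (eA N M δ b) (eB N M L δ b) ξ then 1 / ((L : ℝ) * b.1.1) else 0)
          · intro ξ' _
            split_ifs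
            · exact hpos
            · exact le_rfl
          · exact hξF
  have h2 : ∑ ξ ∈ F,
      ∑ b ∈ (longEdges L).filter (fun b => IsEdgeOf (eA N M δ b) (eB N M L δ b) ξ),
        1 / ((L : ℝ) * b.1.1) ≤ ∑ _ξ ∈ F, (136 : ℝ) := by
    apply Finset.sum_le_sum
    intro ξ hξ
    exact path_weight_le P hA (hF.1 ξ hξ) _ (Finset.filter_subset _ _)
      (fun b hb => (Finset.mem_filter.mp hb).2)
  rw [Finset.sum_const, nsmul_eq_mul] at h2
  -- the total weight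
  have h3 : (L : ℝ) ^ 2 / 2 * ∑ p ∈ Finset.Icc 1 L, (Nat.totient p : ℝ) / (p : ℝ) ^ 2 ≤
      ∑ b ∈ longEdges L, 1 / ((L : ℝ) * b.1.1) := by
    have e1 : ∑ b ∈ longEdges L, 1 / ((L : ℝ) * b.1.1) =
        ∑ s ∈ slopes L, (L : ℝ) * L * (L / s.1 : ℕ) * (1 / ((L : ℝ) * s.1)) := by
      rw [longEdges, Finset.sum_sigma]
      apply Finset.sum_congr rfl
      intro s _
      simp only [Finset.sum_const, Finset.card_product, Finset.card_range, nsmul_eq_mul]
      push_cast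
      ring
    rw [e1]
    have e2 : ∀ s ∈ slopes L, (L : ℝ) ^ 2 / 2 * (1 / (s.1 : ℝ) ^ 2) ≤
        (L : ℝ) * L * (L / s.1 : ℕ) * (1 / ((L : ℝ) * s.1)) := by
      intro s hs
      rw [mem_slopes] at hs
      have hs1 : (1 : ℝ) ≤ s.1 := by exact_mod_cast hs.1.1
      have hd : (L : ℝ) ≤ 2 * (s.1 * (L / s.1 : ℕ)) := by
        have : L ≤ 2 * (s.1 * (L / s.1)) := by
          have g1 : 1 ≤ L / s.1 := Nat.div_pos hs.1.2 hs.1.1
          have g2 := Nat.div_add_mod L s.1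
          have g3 := Nat.mod_lt L (show 0 < s.1 from hs.1.1)
          nlinarith
        exact_mod_cast this
      have e3 : (L : ℝ) * L * (L / s.1 : ℕ) * (1 / ((L : ℝ) * s.1)) =
          (L : ℝ) * (s.1 * (L / s.1 : ℕ)) / (s.1 : ℝ) ^ 2 := by
        field_simp
      rw [e3, mul_one_div, div_le_div_iff_of_pos_right (by positivity)]
      nlinarith
    refine le_trans (le_of_eq ?_) (Finset.sum_le_sum e2)
    rw [← Finset.mul_sum]
    congr 1
    -- sum over slopes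
    have e4 : ∑ s ∈ slopes L, 1 / (s.1 : ℝ) ^ 2 =
        ∑ p ∈ Finset.Icc 1 L, ∑ q ∈ Finset.range L,
          if (q < p ∧ Nat.Coprime p q) then 1 / (p : ℝ) ^ 2 else 0 := by
      rw [slopes, Finset.sum_filter, Finset.sum_product]
    rw [e4]
    apply Finset.sum_congr rfl
    intro p hp
    rw [Finset.mem_Icc] at hp
    rw [← Finset.sum_filter, Finset.sum_const, nsmul_eq_mul, mul_one_div]
    congr 2
    rw [Nat.totient]
    congr 1
    ext q
    simp only [Finset.mem_filter, Finset.mem_range]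
    constructor
    · rintro ⟨h1, h2⟩; exact ⟨by omega, h1, h2⟩
    · rintro ⟨_, h1, h2⟩; exact ⟨h1, h2⟩
  have h4 := log_le_sum_totient L
  have h5 : (L : ℝ) ^ 2 * Real.log (L + 1) / 4 ≤
      (L : ℝ) ^ 2 / 2 * ∑ p ∈ Finset.Icc 1 L, (Nat.totient p : ℝ) / (p : ℝ) ^ 2 := by
    have : (0 : ℝ) ≤ (L : ℝ) ^ 2 := by positivity
    nlinarith
  linarith

end Pool.Agent.Helper30.MonoCover
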