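import Pool.Agent.Helper30.MonoCoverFinal

/-!
# Quadratically perturbed grids have linear monotone path covers
-/

namespace Pool.Agent.Helper30.MonoCover

/-- In a strictly increasing list, neighbours are adjacent. -/
theorem list_adjacent {l : List ℝ} (hl : l.Pairwise (· < ·)) {x y : ℝ} (hx : x ∈ l) (hy : y ∈ l)
    (hxy : x < y) (hno : ∀ z ∈ l, ¬ (x < z ∧ z < y)) : ∃ l1 l2 : List ℝ, l = l1 ++ [x, y] ++ l2 := by
  obtain ⟨i, hi, rfl⟩ := List.mem_iff_getElem.mp hx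
  obtain ⟨j, hj, rfl⟩ := List.mem_iff_getElem.mp hy
  rw [List.pairwise_iff_getElem] at hl
  have hij : i < j := by
    rcases lt_trichotomy i j with h | h | h
    · exact h
    · subst h; exact absurd hxy (lt_irrefl _)
    · have := hl j i hj hi h; exact absurd this (not_lt.mpr hxy.le)
  have hj' : j = i + 1 := by
    by_contra hne
    have h1 : i + 1 < j := by omega
    have h2 : i + 1 < l.length := by omega
    exact hno l[i + 1] (List.getElem_mem h2) ⟨hl i (i + 1) hi h2 (by omega), hl (i + 1) j h2 hj h1⟩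
  subst hj'
  refine ⟨l.take i, l.drop (i + 2), ?_⟩
  conv_lhs => rw [← List.take_append_drop i l]
  rw [List.append_assoc]
  congr 1
  rw [List.drop_eq_getElem_cons hi, List.drop_eq_getElem_cons hj]
  rfl

/-- Sorting the points of `A` by their projection on a generic direction gives a monotone path;
points with adjacent projections form an edge. -/
theorem sorted_path (A : Finset Plane) (u : Plane) (hu : u ≠ 0)
    (hinj : ∀ v ∈ A, ∀ w ∈ A, v ≠ w → inner ℝ v u ≠ inner ℝ w u) :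
    ∃ ξ : List Plane, IsMonotonePath A ξ ∧ ∀ a ∈ A, ∀ b ∈ A, inner ℝ a u < inner ℝ b u →
      (∀ c ∈ A, ¬ (inner ℝ a u < inner ℝ c u ∧ inner ℝ c u < inner ℝ b u)) → IsEdgeOf a b ξ := by
  classical
  let f : Plane → ℝ := fun v => inner ℝ v u
  have hf : Set.InjOn f (A : Set Plane) := by
    intro v hv w hw h
    by_contra hne
    exact hinj v hv w hw hne h
  let g : ℝ → Plane := Function.invFunOn f (A : Set Plane)
  have hg : ∀ v ∈ A, g (f v) = v := fun v hv => hf.leftInvOn_invFunOn hv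
  let l : List ℝ := (A.image f).sort (· ≤ ·)
  have hl : l.Pairwise (· < ·) := Finset.sortedLT_sort _ |>.pairwise
  have hmem : ∀ x, x ∈ l ↔ ∃ v ∈ A, f v = x := by
    intro x
    rw [Finset.mem_sort, Finset.mem_image]
  refine ⟨l.map g, ⟨?_, u, hu, ?_⟩, ?_⟩
  · intro v hv
    rw [List.mem_map] at hv
    obtain ⟨x, hx, rfl⟩ := hv
    obtain ⟨v, hv, rfl⟩ := (hmem x).mp hx
    rw [hg v hv]; exact hv
  · rw [List.isChain_map]
    have h1 : l.IsChain (· < ·) := hl.isChain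
    have h2 : ∀ x ∈ l, inner ℝ (g x) u = x := by
      intro x hx
      obtain ⟨v, hv, rfl⟩ := (hmem x).mp hx
      rw [hg v hv]
    rw [List.isChain_iff_getElem] at h1 ⊢
    intro i hi
    have h3 := h1 i hi
    rw [inner_sub_left, h2 _ (List.getElem_mem _), h2 _ (List.getElem_mem _)]
    linarith
  · intro a ha b hb hab hno
    obtain ⟨l1, l2, hl12⟩ := list_adjacent hl ((hmem (f a)).mpr ⟨a, ha, rfl⟩)
      ((hmem (f b)).mpr ⟨b, hb, rfl⟩) hab (by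
        intro z hz hz'
        obtain ⟨c, hc, rfl⟩ := (hmem z).mp hz
        exact hno c hc hz')
    refine ⟨l1.map g, l2.map g, Or.inl ?_⟩
    rw [hl12]
    simp [hg a ha, hg b hb]

/-- The quadratic perturbation. -/
noncomputable def gquad (x y : ℤ) : ℝ := ((x ^ 2 + y ^ 2 : ℤ) : ℝ)

theorem gquad_le {N : ℕ} {x y : ℤ} (hx0 : 0 ≤ x) (hx : x < N) (hy0 : 0 ≤ y) (hy : y < N) :
    |gquad x y| ≤ 2 * (N : ℝ) ^ 2 := by
  unfold gquad
  have h0 : (0 : ℤ) ≤ x ^ 2 + y ^ 2 := by positivity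
  rw [abs_of_nonneg (by exact_mod_cast h0)]
  have : x ^ 2 + y ^ 2 ≤ 2 * (N : ℤ) ^ 2 := by nlinarith
  exact_mod_cast this

/-- The first-order determinants of the quadratic perturbation do not vanish. -/
theorem gquad_det {N : ℕ} (x1 y1 x2 y2 x3 y3 : ℤ)
    (a3 : 0 ≤ y1) (a4 : y1 < N) (b3 : 0 ≤ y2) (b4 : y2 < N)
    (n12 : (x1, y1) ≠ (x2, y2)) (n13 : (x1, y1) ≠ (x3, y3)) (n23 : (x2, y2) ≠ (x3, y3))
    (h0 : (x2 - x1) * (y3 - y1) - (x3 - x1) * (y2 - y1) = 0) :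
    ((N * (x2 - x1) - (y2 - y1) : ℤ) : ℝ) * (gquad x3 y3 - gquad x1 y1) -
        ((N * (x3 - x1) - (y3 - y1) : ℤ) : ℝ) * (gquad x2 y2 - gquad x1 y1) ≠ 0 := by
  have hcast : ((N * (x2 - x1) - (y2 - y1) : ℤ) : ℝ) * (gquad x3 y3 - gquad x1 y1) -
        ((N * (x3 - x1) - (y3 - y1) : ℤ) : ℝ) * (gquad x2 y2 - gquad x1 y1) =
      (((N * (x2 - x1) - (y2 - y1)) * ((x3 ^ 2 + y3 ^ 2) - (x1 ^ 2 + y1 ^ 2)) -
        (N * (x3 - x1) - (y3 - y1)) * ((x2 ^ 2 + y2 ^ 2) - (x1 ^ 2 + y1 ^ 2)) : ℤ) : ℝ) := by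
    unfold gquad; push_cast; ring
  rw [hcast]
  norm_cast
  obtain ⟨X2, hX2⟩ : ∃ X2, X2 = x2 - x1 := ⟨_, rfl⟩
  obtain ⟨Y2, hY2⟩ : ∃ Y2, Y2 = y2 - y1 := ⟨_, rfl⟩
  obtain ⟨X3, hX3⟩ : ∃ X3, X3 = x3 - x1 := ⟨_, rfl⟩
  obtain ⟨Y3, hY3⟩ : ∃ Y3, Y3 = y3 - y1 := ⟨_, rfl⟩
  have ex2 : x2 = x1 + X2 := by omega
  have ey2 : y2 = y1 + Y2 := by omega
  have ex3 : x3 = x1 + X3 := by omega
  have ey3 : y3 = y1 + Y3 := by omega
  have hn2 : ¬ (X2 = 0 ∧ Y2 = 0) := by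
    rintro ⟨h, h'⟩; apply n12; rw [ex2, ey2, h, h']; simp
  have hn3 : ¬ (X3 = 0 ∧ Y3 = 0) := by
    rintro ⟨h, h'⟩; apply n13; rw [ex3, ey3, h, h']; simp
  have hn23 : ¬ (X2 = X3 ∧ Y2 = Y3) := by
    rintro ⟨h, h'⟩; apply n23; rw [ex3, ey3, ex2, ey2, h, h']
  have hY2b : -(N : ℤ) < Y2 ∧ Y2 < N := by omega
  subst ex2 ey2 ex3 ey3
  have h0' : X2 * Y3 = X3 * Y2 := by
    have : (x1 + X2 - x1) * (y1 + Y3 - y1) - (x1 + X3 - x1) * (y1 + Y2 - y1)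
        = X2 * Y3 - X3 * Y2 := by ring
    rw [this] at h0; omega
  by_cases hX : X2 = 0
  · subst hX
    have hY2n : Y2 ≠ 0 := fun h => hn2 ⟨rfl, h⟩
    have hX3 : X3 = 0 := by
      rw [zero_mul] at h0'
      rcases mul_eq_zero.mp h0'.symm with h | h
      · exact h
      · exact absurd h hY2n
    subst hX3
    have hY3n : Y3 ≠ 0 := fun h => hn3 ⟨rfl, h⟩
    have hYY : Y2 - Y3 ≠ 0 := fun h => hn23 ⟨rfl, by omega⟩
    have : (↑N * (x1 + 0 - x1) - (y1 + Y2 - y1)) * ((x1 + 0) ^ 2 + (y1 + Y3) ^ 2 -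
        (x1 ^ 2 + y1 ^ 2)) - (↑N * (x1 + 0 - x1) - (y1 + Y3 - y1)) *
        ((x1 + 0) ^ 2 + (y1 + Y2) ^ 2 - (x1 ^ 2 + y1 ^ 2)) = Y2 * Y3 * (Y2 - Y3) := by ring
    rw [this]
    exact mul_ne_zero (mul_ne_zero hY2n hY3n) hYY
  · intro hz
    have hl : (N : ℤ) * X2 - Y2 ≠ 0 := by
      intro h
      rcases lt_or_gt_of_ne hX with h' | h'
      · have : (N : ℤ) * X2 ≤ N * (-1) := mul_le_mul_of_nonneg_left (by omega) (by positivity)
        omega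
      · have : (N : ℤ) * 1 ≤ N * X2 := mul_le_mul_of_nonneg_left (by omega) (by positivity)
        omega
    have hX3n : X3 ≠ 0 := by
      intro h
      subst h
      rw [zero_mul] at h0'
      rcases mul_eq_zero.mp h0' with h | h
      · exact hX h
      · exact hn3 ⟨rfl, h⟩
    have hXX : X3 - X2 ≠ 0 := by
      intro h
      have h1 : X3 = X2 := by omega
      subst h1
      exact hn23 ⟨rfl, (mul_left_cancel₀ hX h0').symm⟩
    have hsq : X2 ^ 2 + Y2 ^ 2 ≠ 0 := by positivity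
    have key : X2 ^ 2 * ((↑N * (x1 + X2 - x1) - (y1 + Y2 - y1)) * ((x1 + X3) ^ 2 + (y1 + Y3) ^ 2 -
        (x1 ^ 2 + y1 ^ 2)) - (↑N * (x1 + X3 - x1) - (y1 + Y3 - y1)) *
        ((x1 + X2) ^ 2 + (y1 + Y2) ^ 2 - (x1 ^ 2 + y1 ^ 2))) =
        (N * X2 - Y2) * X3 * (X3 - X2) * (X2 ^ 2 + Y2 ^ 2) := by
      have hY3 : X2 * Y3 = X3 * Y2 := h0'
      linear_combination (exp := 1) (X2 * (N * X2 - Y2) * (2 * y1) + (N * X2 - Y2) * (X2 * Y3 + X3 * Y2) + X2 * (2 * (x1 * X2 + y1 * Y2) + X2 ^ 2 + Y2 ^ 2)) * hY3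
    rw [hz, mul_zero] at key
    exact mul_ne_zero (mul_ne_zero (mul_ne_zero hl hX3n) hXX) hsq key.symm

end Pool.Agent.Helper30.MonoCover
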