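import Pool.Agent.Helper30.MonoCoverUpper

/-!
# The linear family of monotone paths
-/

namespace Pool.Agent.Helper30.MonoCover

/-- The directions used for the slope `(p, q)`. -/
noncomputable def udir (N : ℕ) (δ : ℝ) (p q : ℤ) (lam : ℝ) : Plane :=
  !₂[-(q : ℝ) + lam * δ * N, (p : ℝ) - lam * δ]

/-- Projected differences. -/
theorem inner_udir_sub (N : ℕ) (δ : ℝ) (p q : ℤ) (lam : ℝ) (x y x' y' : ℤ) :
    inner ℝ (gpt N δ gquad x' y') (udir N δ p q lam) - inner ℝ (gpt N δ gquad x y)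
      (udir N δ p q lam) = ((p * (y' - y) - q * (x' - x) : ℤ) : ℝ) +
      (lam * δ * ((N * (x' - x) - (y' - y) : ℤ) : ℝ) +
        δ * ((N * p - q : ℤ) : ℝ) * (gquad x' y' - gquad x y)) := by
  rw [inner_gpt, inner_gpt]
  have h0 : udir N δ p q lam 0 = -(q : ℝ) + lam * δ * N := by simp [udir]
  have h1 : udir N δ p q lam 1 = (p : ℝ) - lam * δ := by simp [udir]
  rw [h0, h1]
  push_cast
  ring

/-- The parameters for the upper bound. -/
structure QParams (N : ℕ) (δ : ℝ) : Prop where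
  hN : 2 ≤ N
  hδ : δ = 1 / (100 * (N : ℝ) ^ 4)

namespace QParams

variable {N : ℕ} {δ : ℝ}

theorem Npos (Q : QParams N δ) : (2 : ℝ) ≤ N := by exact_mod_cast Q.hN

theorem pos (Q : QParams N δ) : 0 < δ := by
  have := Q.Npos
  rw [Q.hδ]; positivity

theorem mul (Q : QParams N δ) : δ * (N : ℝ) ^ 4 = 1 / 100 := by
  have := Q.Npos
  rw [Q.hδ]; field_simp

theorem small (Q : QParams N δ) : δ * (8 * N ^ 2 * (2 * (N : ℝ) ^ 2)) < 1 := by
  have h := Q.mul
  have : δ * (8 * N ^ 2 * (2 * (N : ℝ) ^ 2)) = 16 * (δ * (N : ℝ) ^ 4) := by ring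
  rw [this, h]; norm_num

end QParams

/-- The perturbation terms are at most `1/4`. -/
theorem err_le {N : ℕ} {δ : ℝ} (Q : QParams N δ) (p q : ℤ) (r : ℕ) (hr : r < N)
    (hp : |p| ≤ r) (hq : |q| ≤ r) (lam : ℝ) (hlam : |lam| ≤ 11 * (N : ℝ) ^ 2) (x y x' y' : ℤ)
    (h1 : 0 ≤ x) (h2 : x < N) (h3 : 0 ≤ y) (h4 : y < N)
    (h1' : 0 ≤ x') (h2' : x' < N) (h3' : 0 ≤ y') (h4' : y' < N) :
    |lam * δ * ((N * (x' - x) - (y' - y) : ℤ) : ℝ) +
        δ * ((N * p - q : ℤ) : ℝ) * (gquad x' y' - gquad x y)| ≤ 1 / 4 := by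
  have hN := Q.Npos
  have hN' : (2 : ℤ) ≤ N := by exact_mod_cast Q.hN
  have hδ := Q.pos
  have e1 : |((N * (x' - x) - (y' - y) : ℤ) : ℝ)| ≤ (N : ℝ) ^ 2 := by
    have : |(N * (x' - x) - (y' - y) : ℤ)| ≤ (N : ℤ) ^ 2 := by
      rw [abs_le]; constructor <;> nlinarith
    rw [← Int.cast_abs]; exact_mod_cast this
  have e2 : |((N * p - q : ℤ) : ℝ)| ≤ 2 * (N : ℝ) ^ 2 := by
    have : |(N * p - q : ℤ)| ≤ 2 * (N : ℤ) ^ 2 := by
      have hr' : (r : ℤ) < N := by exact_mod_cast hr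
      rw [abs_le] at hp hq ⊢
      constructor <;> nlinarith
    rw [← Int.cast_abs]; exact_mod_cast this
  have e3 : |gquad x' y' - gquad x y| ≤ 2 * (N : ℝ) ^ 2 := by
    have k1 := gquad_le h1 h2 h3 h4
    have k2 := gquad_le h1' h2' h3' h4'
    have k3 : 0 ≤ gquad x y := by unfold gquad; positivity
    have k4 : 0 ≤ gquad x' y' := by unfold gquad; positivity
    rw [abs_of_nonneg k3] at k1
    rw [abs_of_nonneg k4] at k2
    rw [abs_le]; constructor <;> linarith
  have f1 : |lam * δ * ((N * (x' - x) - (y' - y) : ℤ) : ℝ)| ≤ 11 * (δ * (N : ℝ) ^ 4) := by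
    rw [abs_mul, abs_mul, abs_of_pos hδ]
    calc |lam| * δ * |((N * (x' - x) - (y' - y) : ℤ) : ℝ)| ≤ (11 * (N : ℝ) ^ 2) * δ * (N : ℝ) ^ 2 := by
          apply mul_le_mul _ e1 (abs_nonneg _) (by positivity)
          exact mul_le_mul_of_nonneg_right hlam hδ.le
      _ = 11 * (δ * (N : ℝ) ^ 4) := by ring
  have f2 : |δ * ((N * p - q : ℤ) : ℝ) * (gquad x' y' - gquad x y)| ≤ 4 * (δ * (N : ℝ) ^ 4) := by
    rw [abs_mul, abs_mul, abs_of_pos hδ]
    calc δ * |((N * p - q : ℤ) : ℝ)| * |gquad x' y' - gquad x y| ≤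
        δ * (2 * (N : ℝ) ^ 2) * (2 * (N : ℝ) ^ 2) := by
          apply mul_le_mul _ e3 (abs_nonneg _) (by positivity)
          exact mul_le_mul_of_nonneg_left e2 hδ.le
      _ = 4 * (δ * (N : ℝ) ^ 4) := by ring
  calc _ ≤ |lam * δ * ((N * (x' - x) - (y' - y) : ℤ) : ℝ)| +
        |δ * ((N * p - q : ℤ) : ℝ) * (gquad x' y' - gquad x y)| := abs_add_le _ _
    _ ≤ 11 * (δ * (N : ℝ) ^ 4) + 4 * (δ * (N : ℝ) ^ 4) := add_le_add f1 f2
    _ ≤ 1 / 4 := by rw [Q.mul]; norm_num

/-- Vectors parallel to a primitive vector are multiples of it. -/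
theorem exists_multiple {p q a b : ℤ} (hpq : IsCoprime p q) (h : p * b - q * a = 0) :
    ∃ t : ℤ, a = t * p ∧ b = t * q := by
  obtain ⟨u, v, huv⟩ := hpq
  refine ⟨u * a + v * b, ?_, ?_⟩
  · linear_combination (-a) * huv - v * h
  · linear_combination (-b) * huv + u * h

/-- On a line of slope `(p, q)` the projected differences are quadratic in the position. -/
theorem inner_line (N : ℕ) (δ : ℝ) (p q k : ℤ) (x y t : ℤ) :
    inner ℝ (gpt N δ gquad (x + t * p) (y + t * q))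
        (udir N δ p q ((k * (p ^ 2 + q ^ 2) : ℤ) + 1 / 2)) -
      inner ℝ (gpt N δ gquad x y) (udir N δ p q ((k * (p ^ 2 + q ^ 2) : ℤ) + 1 / 2)) =
    δ * ((N * p - q : ℤ) : ℝ) / 2 *
      ((t * (2 * (k * (p ^ 2 + q ^ 2) + 2 * (x * p + y * q) + t * (p ^ 2 + q ^ 2)) + 1) : ℤ) : ℝ) := by
  rw [inner_udir_sub]
  unfold gquad
  push_cast
  ring

/-- Primitive slope: different grid points have different projections. -/
theorem inner_ne {N : ℕ} {δ : ℝ} (Q : QParams N δ) (p q : ℤ) (hpq : IsCoprime p q) (r : ℕ)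
    (hr : r < N) (hp : |p| ≤ r) (hq : |q| ≤ r) (k : ℤ)
    (hlam : |((k * (p ^ 2 + q ^ 2) : ℤ) : ℝ) + 1 / 2| ≤ 11 * (N : ℝ) ^ 2) (hω : (N : ℤ) * p - q ≠ 0)
    (x y x' y' : ℤ)
    (h1 : 0 ≤ x) (h2 : x < N) (h3 : 0 ≤ y) (h4 : y < N)
    (h1' : 0 ≤ x') (h2' : x' < N) (h3' : 0 ≤ y') (h4' : y' < N) (hne : (x, y) ≠ (x', y')) :
    inner ℝ (gpt N δ gquad x' y') (udir N δ p q ((k * (p ^ 2 + q ^ 2) : ℤ) + 1 / 2)) ≠
      inner ℝ (gpt N δ gquad x y) (udir N δ p q ((k * (p ^ 2 + q ^ 2) : ℤ) + 1 / 2)) := by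
  intro he
  have he' := sub_eq_zero.mpr he
  by_cases hd : p * (y' - y) - q * (x' - x) = 0
  · obtain ⟨t, ht1, ht2⟩ := exists_multiple hpq hd
    have e1 : x' = x + t * p := by omega
    have e2 : y' = y + t * q := by omega
    have ht : t ≠ 0 := by
      rintro rfl
      apply hne
      rw [e1, e2]; simp
    rw [e1, e2, inner_line] at he'
    have hδ := Q.pos
    rcases mul_eq_zero.mp he' with h | h
    · rcases div_eq_zero_iff.mp h with h | h
      · rcases mul_eq_zero.mp h with h | h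
        · exact hδ.ne' h
        · exact hω (by exact_mod_cast h)
      · norm_num at h
    · have h' : t * (2 * (k * (p ^ 2 + q ^ 2) + 2 * (x * p + y * q) + t * (p ^ 2 + q ^ 2)) + 1) = 0 := by
        exact_mod_cast h
      rcases mul_eq_zero.mp h' with h'' | h''
      · exact ht h''
      · omega
  · rw [inner_udir_sub] at he'
    have herr := err_le Q p q r hr hp hq _ hlam x y x' y' h1 h2 h3 h4 h1' h2' h3' h4'
    have hone : (1 : ℝ) ≤ |((p * (y' - y) - q * (x' - x) : ℤ) : ℝ)| := by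
      have : (1 : ℤ) ≤ |p * (y' - y) - q * (x' - x)| := Int.one_le_abs hd
      rw [← Int.cast_abs]; exact_mod_cast this
    have : ((p * (y' - y) - q * (x' - x) : ℤ) : ℝ) = -((((k * (p ^ 2 + q ^ 2) : ℤ) : ℝ) + 1 / 2) * δ *
        ((N * (x' - x) - (y' - y) : ℤ) : ℝ) +
        δ * ((N * p - q : ℤ) : ℝ) * (gquad x' y' - gquad x y)) := by linarith
    rw [this, abs_neg] at hone
    linarith

/-- The integer inequality behind adjacency. -/
theorem not_between {A j m t : ℤ} (hA : 0 < A) (hj : 1 ≤ j) (hm0 : 0 ≤ m) (hm1 : m < A)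
    (h1 : 0 < t * (2 * (A * (t - j) + m) + 1)) (h2 : t * (2 * (A * (t - j) + m) + 1) < j * (2 * m + 1)) :
    False := by
  rcases lt_trichotomy t 0 with ht | ht | ht
  · -- t ≤ -1
    have k1 : 2 * (A * (t - j) + m) + 1 ≤ -(2 * A * j) - 1 := by nlinarith
    have k2 : (2 * A * j + 1) ≤ t * (2 * (A * (t - j) + m) + 1) := by nlinarith
    have k3 : j * (2 * m + 1) ≤ 2 * A * j := by nlinarith
    linarith
  · subst ht; simp at h1
  · rcases lt_trichotomy t j with htj | htj | htj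
    · have k1 : 2 * (A * (t - j) + m) + 1 < 0 := by nlinarith
      nlinarith
    · subst htj
      have : t * (2 * (A * (t - t) + m) + 1) = t * (2 * m + 1) := by ring
      linarith
    · have k1 : 2 * m + 1 ≤ 2 * (A * (t - j) + m) + 1 := by nlinarith
      have k2 : j * (2 * m + 1) ≤ t * (2 * (A * (t - j) + m) + 1) := by
        apply mul_le_mul htj.le k1 (by omega) (by omega)
      linarith

/-- Adjacency of `P` and `P + j (p, q)` in the order given by a suitable direction. -/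
theorem adjacent {N : ℕ} {δ : ℝ} (Q : QParams N δ) (p q : ℤ) (hpq : IsCoprime p q) (r : ℕ)
    (hr : r < N) (hp : |p| ≤ r) (hq : |q| ≤ r) (x y j : ℤ) (hj : 1 ≤ j) (k : ℤ)
    (hk : k = -((2 * (x * p + y * q) + j * (p ^ 2 + q ^ 2)) / (p ^ 2 + q ^ 2)))
    (hlam : |((k * (p ^ 2 + q ^ 2) : ℤ) : ℝ) + 1 / 2| ≤ 11 * (N : ℝ) ^ 2) (hω : (N : ℤ) * p - q ≠ 0)
    (h1 : 0 ≤ x) (h2 : x < N) (h3 : 0 ≤ y) (h4 : y < N)
    (h1' : 0 ≤ x + j * p) (h2' : x + j * p < N) (h3' : 0 ≤ y + j * q) (h4' : y + j * q < N)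
    (X Y : ℤ) (g1 : 0 ≤ X) (g2 : X < N) (g3 : 0 ≤ Y) (g4 : Y < N) (u : Plane)
    (hu : u = udir N δ p q ((k * (p ^ 2 + q ^ 2) : ℤ) + 1 / 2)) :
    ¬ (inner ℝ (gpt N δ gquad x y) u < inner ℝ (gpt N δ gquad X Y) u ∧
        inner ℝ (gpt N δ gquad X Y) u < inner ℝ (gpt N δ gquad (x + j * p) (y + j * q)) u) ∧
    ¬ (inner ℝ (gpt N δ gquad (x + j * p) (y + j * q)) u < inner ℝ (gpt N δ gquad X Y) u ∧
        inner ℝ (gpt N δ gquad X Y) u < inner ℝ (gpt N δ gquad x y) u) := by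
  subst hu
  set A : ℤ := p ^ 2 + q ^ 2 with hA
  have hA0 : 0 < A := by
    have h0 : ¬ (p = 0 ∧ q = 0) := by
      rintro ⟨rfl, rfl⟩; exact hω (by simp)
    rcases not_and_or.mp h0 with h | h
    · have : 0 < p ^ 2 := by positivity
      have : 0 ≤ q ^ 2 := by positivity
      omega
    · have : 0 < q ^ 2 := by positivity
      have : 0 ≤ p ^ 2 := by positivity
      omega
  set v : ℤ := 2 * (x * p + y * q) + j * A with hv
  set m : ℤ := v % A with hm
  have hm0 : 0 ≤ m := Int.emod_nonneg _ hA0.ne'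
  have hm1 : m < A := Int.emod_lt_of_pos _ hA0
  have hkm : k * A + v = m := by
    rw [hk, hm]; have := Int.emod_add_mul_ediv v A; linarith
  have hPP' : inner ℝ (gpt N δ gquad (x + j * p) (y + j * q)) (udir N δ p q ((k * A : ℤ) + 1 / 2)) -
      inner ℝ (gpt N δ gquad x y) (udir N δ p q ((k * A : ℤ) + 1 / 2)) =
      δ * ((N * p - q : ℤ) : ℝ) / 2 * ((j * (2 * m + 1) : ℤ) : ℝ) := by
    rw [inner_line]
    congr 2
    have : k * (p ^ 2 + q ^ 2) + 2 * (x * p + y * q) + j * (p ^ 2 + q ^ 2) = m := by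
      rw [← hA, ← hkm, hv]; ring
    rw [this]
  by_cases hd : p * (Y - y) - q * (X - x) = 0
  · -- same line
    obtain ⟨t, ht1, ht2⟩ := exists_multiple hpq hd
    have e1 : X = x + t * p := by omega
    have e2 : Y = y + t * q := by omega
    have hPR : inner ℝ (gpt N δ gquad X Y) (udir N δ p q ((k * A : ℤ) + 1 / 2)) -
      inner ℝ (gpt N δ gquad x y) (udir N δ p q ((k * A : ℤ) + 1 / 2)) =
      δ * ((N * p - q : ℤ) : ℝ) / 2 * ((t * (2 * (A * (t - j) + m) + 1) : ℤ) : ℝ) := by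
      rw [e1, e2, inner_line]
      congr 2
      have : k * (p ^ 2 + q ^ 2) + 2 * (x * p + y * q) + t * (p ^ 2 + q ^ 2) =
          A * (t - j) + m := by
        rw [← hA, ← hkm, hv]; ring
      rw [this]
    have hδ := Q.pos
    rcases lt_or_gt_of_ne hω with hneg | hpos
    · have hc : δ * ((N * p - q : ℤ) : ℝ) / 2 < 0 := by
        have : ((N * p - q : ℤ) : ℝ) < 0 := by exact_mod_cast hneg
        nlinarith
      have hjm : 0 < j * (2 * m + 1) := by positivity
      have hjm' : (0 : ℝ) < ((j * (2 * m + 1) : ℤ) : ℝ) := by exact_mod_cast hjm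
      constructor
      · rintro ⟨q1, q2⟩
        nlinarith
      · rintro ⟨q1, q2⟩
        apply not_between hA0 hj hm0 hm1 (t := t)
        · have : (0 : ℝ) < ((t * (2 * (A * (t - j) + m) + 1) : ℤ) : ℝ) := by
            by_contra hcon
            push Not at hcon
            nlinarith
          exact_mod_cast this
        · have : ((t * (2 * (A * (t - j) + m) + 1) : ℤ) : ℝ) < ((j * (2 * m + 1) : ℤ) : ℝ) := by
            by_contra hcon
            push Not at hcon
            nlinarith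
          exact_mod_cast this
    · have hc : 0 < δ * ((N * p - q : ℤ) : ℝ) / 2 := by
        have : 0 < ((N * p - q : ℤ) : ℝ) := by exact_mod_cast hpos
        positivity
      have hjm : 0 < j * (2 * m + 1) := by positivity
      have hjm' : (0 : ℝ) < ((j * (2 * m + 1) : ℤ) : ℝ) := by exact_mod_cast hjm
      constructor
      · rintro ⟨q1, q2⟩
        apply not_between hA0 hj hm0 hm1 (t := t)
        · have : (0 : ℝ) < ((t * (2 * (A * (t - j) + m) + 1) : ℤ) : ℝ) := by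
            by_contra hcon
            push Not at hcon
            nlinarith
          exact_mod_cast this
        · have : ((t * (2 * (A * (t - j) + m) + 1) : ℤ) : ℝ) < ((j * (2 * m + 1) : ℤ) : ℝ) := by
            by_contra hcon
            push Not at hcon
            nlinarith
          exact_mod_cast this
      · rintro ⟨q1, q2⟩
        nlinarith
  · -- different lines
    have herr := err_le Q p q r hr hp hq _ hlam x y X Y h1 h2 h3 h4 g1 g2 g3 g4
    have herr' := err_le Q p q r hr hp hq _ hlam x y (x + j * p) (y + j * q) h1 h2 h3 h4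
      h1' h2' h3' h4'
    have hPR := inner_udir_sub N δ p q (((k * A : ℤ) : ℝ) + 1 / 2) x y X Y
    have hPP := inner_udir_sub N δ p q (((k * A : ℤ) : ℝ) + 1 / 2) x y (x + j * p) (y + j * q)
    have hz : (p * (y + j * q - y) - q * (x + j * p - x) : ℤ) = 0 := by ring
    rw [hz, Int.cast_zero, zero_add] at hPP
    have hone : (1 : ℝ) ≤ |((p * (Y - y) - q * (X - x) : ℤ) : ℝ)| := by
      have : (1 : ℤ) ≤ |p * (Y - y) - q * (X - x)| := Int.one_le_abs hd
      rw [← Int.cast_abs]; exact_mod_cast this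
    rw [← hPP] at herr'
    rw [abs_le] at herr herr'
    rcases le_abs.mp hone with h | h
    · constructor <;> (rintro ⟨q1, q2⟩; linarith [herr.1, herr.2, herr'.1, herr'.2])
    · constructor <;> (rintro ⟨q1, q2⟩; linarith [herr.1, herr.2, herr'.1, herr'.2])

end Pool.Agent.Helper30.MonoCover
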