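import Pool.Agent.Helper30.MonoCoverUpper2

/-!
# Counting the paths
-/

namespace Pool.Agent.Helper30.MonoCover

theorem IsEdgeOf.symm {a b : Plane} {ξ : List Plane} (h : IsEdgeOf a b ξ) : IsEdgeOf b a ξ := by
  obtain ⟨l, r, h⟩ := h
  exact ⟨l, r, h.symm⟩

/-- The slope with index `(side, r, t)`. -/
def slopeOf (i : Bool × ℕ × ℤ × ℤ) : ℤ × ℤ :=
  if i.1 then ((i.2.1 : ℤ), i.2.2.1) else (i.2.2.1, (i.2.1 : ℤ))

/-- The index set of the family of directions. -/
noncomputable def dirIndex (N : ℕ) : Finset (Bool × ℕ × ℤ × ℤ) :=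
  (Finset.univ : Finset Bool) ×ˢ ((Finset.Icc 1 (N - 1)).biUnion (fun r =>
    ({r} : Finset ℕ) ×ˢ (Finset.Icc (-(r : ℤ)) r ×ˢ
      Finset.Icc (-((4 * N / r + 1 : ℕ) : ℤ)) ((4 * N / r + 1 : ℕ) : ℤ))))

theorem mem_dirIndex {N : ℕ} {i : Bool × ℕ × ℤ × ℤ} : i ∈ dirIndex N ↔
    (1 ≤ i.2.1 ∧ i.2.1 ≤ N - 1) ∧ (-(i.2.1 : ℤ) ≤ i.2.2.1 ∧ i.2.2.1 ≤ i.2.1) ∧
      (-((4 * N / i.2.1 + 1 : ℕ) : ℤ) ≤ i.2.2.2 ∧ i.2.2.2 ≤ ((4 * N / i.2.1 + 1 : ℕ) : ℤ)) := by
  obtain ⟨s, r, t, k⟩ := i
  simp only [dirIndex, Finset.mem_product, Finset.mem_univ, true_and, Finset.mem_biUnion,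
    Finset.mem_Icc, Finset.mem_singleton]
  constructor
  · rintro ⟨r', h1, h2, h3, h4⟩
    subst h2
    exact ⟨h1, h3, h4⟩
  · rintro ⟨h1, h2, h3⟩
    exact ⟨r, h1, rfl, h2, h3⟩

theorem card_dirIndex_le {N : ℕ} : (dirIndex N).card ≤ 66 * N ^ 2 := by
  rw [dirIndex, Finset.card_product, Finset.card_univ, Fintype.card_bool]
  have h1 : ((Finset.Icc 1 (N - 1)).biUnion (fun r =>
    ({r} : Finset ℕ) ×ˢ (Finset.Icc (-(r : ℤ)) r ×ˢ
      Finset.Icc (-((4 * N / r + 1 : ℕ) : ℤ)) ((4 * N / r + 1 : ℕ) : ℤ)))).card ≤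
      ∑ r ∈ Finset.Icc 1 (N - 1), 33 * N := by
    refine Finset.card_biUnion_le.trans (Finset.sum_le_sum ?_)
    intro r hr
    rw [Finset.mem_Icc] at hr
    rw [Finset.card_product, Finset.card_singleton, Finset.card_product, Int.card_Icc, Int.card_Icc]
    have e1 : ((r : ℤ) + 1 - -(r : ℤ)).toNat = 2 * r + 1 := by omega
    have e2 : (((4 * N / r + 1 : ℕ) : ℤ) + 1 - -((4 * N / r + 1 : ℕ) : ℤ)).toNat =
        2 * (4 * N / r) + 3 := by omega
    rw [e1, e2, one_mul]
    have e3 : r * (4 * N / r) ≤ 4 * N := Nat.mul_div_le _ _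
    have e4 : r ≤ N := by omega
    generalize 4 * N / r = z at *
    calc (2 * r + 1) * (2 * z + 3) ≤ (3 * r) * (2 * z + 3) := Nat.mul_le_mul_right _ (by omega)
      _ = 6 * (r * z) + 9 * r := by ring
      _ ≤ 33 * N := by omega
  have h2 : ∑ r ∈ Finset.Icc 1 (N - 1), 33 * N ≤ 33 * N ^ 2 := by
    rw [Finset.sum_const, Nat.card_Icc, smul_eq_mul]
    have : N - 1 + 1 - 1 ≤ N := by omega
    calc (N - 1 + 1 - 1) * (33 * N) ≤ N * (33 * N) := Nat.mul_le_mul_right _ this
      _ = 33 * N ^ 2 := by ring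
  omega

/-- Linear upper bound for quadratically perturbed grids. -/
theorem mc_le_quad {N : ℕ} {δ : ℝ} (Q : QParams N δ) {A : Finset Plane}
    (hA : ∀ v ∈ A, ∃ x y : ℤ, (0 ≤ x ∧ x < N ∧ 0 ≤ y ∧ y < N) ∧ v = gpt N δ gquad x y) :
    mc A ≤ 66 * N ^ 2 := by
  classical
  have hN2 := Q.hN
  -- facts on the indices
  have hidx : ∀ i ∈ dirIndex N, (|(slopeOf i).1| ≤ i.2.1 ∧ |(slopeOf i).2| ≤ i.2.1) ∧
      i.2.1 < N ∧ (N : ℤ) * (slopeOf i).1 - (slopeOf i).2 ≠ 0 ∧
      |((i.2.2.2 * ((slopeOf i).1 ^ 2 + (slopeOf i).2 ^ 2) : ℤ) : ℝ) + 1 / 2| ≤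
        11 * (N : ℝ) ^ 2 := by
    intro i hi
    rw [mem_dirIndex] at hi
    obtain ⟨⟨h1, h2⟩, ⟨h3, h4⟩, h5, h6⟩ := hi
    obtain ⟨s, r, t, k⟩ := i
    simp only at h1 h2 h3 h4 h5 h6 ⊢
    have hr : r < N := by omega
    have hrz : (1 : ℤ) ≤ r := by exact_mod_cast h1
    have hrN : (r : ℤ) < N := by exact_mod_cast hr
    have hs : |(slopeOf (s, r, t, k)).1| ≤ (r : ℤ) ∧ |(slopeOf (s, r, t, k)).2| ≤ (r : ℤ) := by
      cases s
      · simp only [slopeOf, Bool.false_eq_true, if_false]
        rw [abs_le, abs_le]; omega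
      · simp only [slopeOf, if_true]
        rw [abs_le, abs_le]; omega
    have hne : (slopeOf (s, r, t, k)).1 ≠ 0 ∨ (slopeOf (s, r, t, k)).2 ≠ 0 := by
      cases s
      · right; simp only [slopeOf, Bool.false_eq_true, if_false]; omega
      · left; simp only [slopeOf, if_true]; omega
    generalize slopeOf (s, r, t, k) = z at *
    obtain ⟨p, q⟩ := z
    simp only at hs hne ⊢
    refine ⟨hs, hr, ?_, ?_⟩
    · intro h
      rw [abs_le, abs_le] at hs
      rcases lt_trichotomy p 0 with hp | hp | hp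
      · have : (N : ℤ) * p ≤ N * (-1) := mul_le_mul_of_nonneg_left (by omega) (by positivity)
        omega
      · subst hp
        simp at hne h
        exact hne h
      · have : (N : ℤ) * 1 ≤ N * p := mul_le_mul_of_nonneg_left (by omega) (by positivity)
        omega
    · have hp2 : p ^ 2 ≤ (r : ℤ) ^ 2 := sq_le_sq' (abs_le.mp hs.1).1 (abs_le.mp hs.1).2
      have hq2 : q ^ 2 ≤ (r : ℤ) ^ 2 := sq_le_sq' (abs_le.mp hs.2).1 (abs_le.mp hs.2).2
      have hAnn : 0 ≤ p ^ 2 + q ^ 2 := by positivity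
      have hk : |k| ≤ ((4 * N / r + 1 : ℕ) : ℤ) := abs_le.mpr ⟨h5, h6⟩
      have hKr : ((4 * N / r + 1 : ℕ) : ℤ) * r ≤ 4 * N + r := by
        have : (4 * N / r + 1) * r ≤ 4 * N + r := by
          rw [Nat.add_mul, one_mul]
          have := Nat.div_mul_le_self (4 * N) r
          omega
        exact_mod_cast this
      have hmain : |k * (p ^ 2 + q ^ 2)| ≤ 10 * (N : ℤ) ^ 2 := by
        rw [abs_mul, abs_of_nonneg hAnn]
        calc |k| * (p ^ 2 + q ^ 2) ≤ ((4 * N / r + 1 : ℕ) : ℤ) * (2 * (r : ℤ) ^ 2) := by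
              apply mul_le_mul hk (by omega) hAnn (by positivity)
          _ = (((4 * N / r + 1 : ℕ) : ℤ) * r) * (2 * r) := by ring
          _ ≤ (4 * N + r) * (2 * r) := mul_le_mul_of_nonneg_right hKr (by positivity)
          _ ≤ 10 * (N : ℤ) ^ 2 := by nlinarith
      have hmain' : |((k * (p ^ 2 + q ^ 2) : ℤ) : ℝ)| ≤ 10 * (N : ℝ) ^ 2 := by
        rw [← Int.cast_abs]; exact_mod_cast hmain
      have hNr : (2 : ℝ) ≤ N := Q.Npos
      calc |((k * (p ^ 2 + q ^ 2) : ℤ) : ℝ) + 1 / 2|
          ≤ |((k * (p ^ 2 + q ^ 2) : ℤ) : ℝ)| + |(1 / 2 : ℝ)| := abs_add_le _ _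
        _ ≤ 10 * (N : ℝ) ^ 2 + 1 / 2 := by
            apply add_le_add hmain'
            rw [abs_of_pos (by norm_num)]
        _ ≤ 11 * (N : ℝ) ^ 2 := by nlinarith
  -- the direction of an index
  let dir : Bool × ℕ × ℤ × ℤ → Plane := fun i => udir N δ (slopeOf i).1 (slopeOf i).2
    ((i.2.2.2 * ((slopeOf i).1 ^ 2 + (slopeOf i).2 ^ 2) : ℤ) + 1 / 2)
  have hpath : ∀ i : Bool × ℕ × ℤ × ℤ, ∃ ξ : List Plane, IsMonotonePath A ξ ∧
      (i ∈ dirIndex N → IsCoprime (slopeOf i).1 (slopeOf i).2 →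
        ∀ a ∈ A, ∀ b ∈ A, inner ℝ a (dir i) < inner ℝ b (dir i) →
        (∀ c ∈ A, ¬ (inner ℝ a (dir i) < inner ℝ c (dir i) ∧
          inner ℝ c (dir i) < inner ℝ b (dir i))) → IsEdgeOf a b ξ) := by
    intro i
    by_cases hi : i ∈ dirIndex N ∧ IsCoprime (slopeOf i).1 (slopeOf i).2
    · obtain ⟨⟨h1, h2⟩, h3, h4, h5⟩ := hidx i hi.1
      have hinj : ∀ v ∈ A, ∀ w ∈ A, v ≠ w → inner ℝ v (dir i) ≠ inner ℝ w (dir i) := by
        intro v hv w hw hvw
        obtain ⟨x, y, ⟨a1, a2, a3, a4⟩, rfl⟩ := hA v hv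
        obtain ⟨x', y', ⟨b1, b2, b3, b4⟩, rfl⟩ := hA w hw
        have hne : (x', y') ≠ (x, y) := by
          intro h; apply hvw; simp only [Prod.mk.injEq] at h; rw [h.1, h.2]
        exact inner_ne Q _ _ hi.2 i.2.1 h3 h1 h2 i.2.2.2 h5 h4 x' y' x y b1 b2 b3 b4
          a1 a2 a3 a4 hne
      have hu : dir i ≠ 0 := by
        intro h0
        have e0 : dir i 0 = 0 := by rw [h0]; rfl
        have e1 : dir i 1 = 0 := by rw [h0]; rfl
        have f0 : dir i 0 = -((slopeOf i).2 : ℝ) +
          ((i.2.2.2 * ((slopeOf i).1 ^ 2 + (slopeOf i).2 ^ 2) : ℤ) + 1 / 2) * δ * N := by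
          simp [dir, udir]
        have f1 : dir i 1 = ((slopeOf i).1 : ℝ) -
          ((i.2.2.2 * ((slopeOf i).1 ^ 2 + (slopeOf i).2 ^ 2) : ℤ) + 1 / 2) * δ := by
          simp [dir, udir]
        apply h4
        have : (((N : ℤ) * (slopeOf i).1 - (slopeOf i).2 : ℤ) : ℝ) = 0 := by
          push_cast
          rw [e0] at f0
          rw [e1] at f1
          linear_combination (-(N : ℝ)) * f1 - f0
        exact_mod_cast this
      obtain ⟨ξ, hξ1, hξ2⟩ := sorted_path A (dir i) hu hinj
      exact ⟨ξ, hξ1, fun _ _ => hξ2⟩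
    · refine ⟨[], ⟨by simp, !₂[1, 0], ?_, List.IsChain.nil⟩, fun h1 h2 => absurd ⟨h1, h2⟩ hi⟩
      intro h
      have : (!₂[(1 : ℝ), 0] : Plane) 0 = 0 := by rw [h]; rfl
      simp at this
  choose path hpath1 hpath2 using hpath
  have hcov : IsCover A ((dirIndex N).image path) := by
    refine ⟨?_, ?_⟩
    · intro ξ hξ
      rw [Finset.mem_image] at hξ
      obtain ⟨i, _, rfl⟩ := hξ
      exact hpath1 i
    · -- the key case
      have key : ∀ (s : Bool) (x y x' y' : ℤ), 0 ≤ x → x < N → 0 ≤ y → y < N →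
          0 ≤ x' → x' < N → 0 ≤ y' → y' < N → gpt N δ gquad x y ∈ A → gpt N δ gquad x' y' ∈ A →
          (s = true → 0 < x' - x ∧ |y' - y| ≤ x' - x) →
          (s = false → 0 < y' - y ∧ |x' - x| ≤ y' - y) →
          ∃ ξ ∈ (dirIndex N).image path, IsEdgeOf (gpt N δ gquad x y) (gpt N δ gquad x' y') ξ := by
        intro s x y x' y' a1 a2 a3 a4 b1 b2 b3 b4 hPA hPA' hs hs'
        set g : ℕ := Int.gcd (x' - x) (y' - y) with hg
        have hne : x' - x ≠ 0 ∨ y' - y ≠ 0 := by
          cases s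
          · right; have := (hs' rfl).1; omega
          · left; have := (hs rfl).1; omega
        have hg0 : 0 < g := by
          rw [hg]
          apply Nat.pos_of_ne_zero
          intro h
          rw [Int.gcd_eq_zero_iff] at h
          omega
        obtain ⟨p, hp⟩ : ((g : ℤ)) ∣ (x' - x) := Int.gcd_dvd_left _ _
        obtain ⟨q, hq⟩ : ((g : ℤ)) ∣ (y' - y) := Int.gcd_dvd_right _ _
        have hgz : (0 : ℤ) < g := by exact_mod_cast hg0
        have hcop : IsCoprime p q := by
          rw [Int.isCoprime_iff_gcd_eq_one]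
          have : Int.gcd ((g : ℤ) * p) ((g : ℤ) * q) = g := by rw [← hp, ← hq]
          rw [Int.gcd_mul_left, Int.natAbs_natCast] at this
          have h2 : g * Int.gcd p q = g * 1 := by omega
          exact Nat.eq_of_mul_eq_mul_left hg0 h2
        -- the size r of the slope
        obtain ⟨r, t, hr1, hrp, hrq, ht, hslope, hrle, hrA⟩ : ∃ (r : ℕ) (t : ℤ), 1 ≤ r ∧ |p| ≤ r ∧
            |q| ≤ r ∧ (-(r : ℤ) ≤ t ∧ t ≤ r) ∧ (∀ k, slopeOf (s, r, t, k) = (p, q)) ∧ r < N ∧
            (r : ℤ) ^ 2 ≤ p ^ 2 + q ^ 2 := by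
          cases s
          · obtain ⟨h1, h2⟩ := hs' rfl
            rw [hq] at h1 h2
            rw [hp] at h2
            have hq0 : 0 < q := (mul_pos_iff_of_pos_left hgz).mp h1
            rw [abs_mul, abs_of_pos hgz] at h2
            have hpq : |p| ≤ q := le_of_mul_le_mul_left h2 hgz
            refine ⟨q.toNat, p, by omega, ?_, ?_, ?_, ?_, ?_, ?_⟩
            · rw [Int.toNat_of_nonneg hq0.le]; exact hpq
            · rw [Int.toNat_of_nonneg hq0.le, abs_of_pos hq0]
            · rw [Int.toNat_of_nonneg hq0.le]; exact abs_le.mp hpq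
            · intro k
              simp only [slopeOf, Bool.false_eq_true, if_false]
              rw [Int.toNat_of_nonneg hq0.le]
            · have : q ≤ g * q := by nlinarith
              omega
            · rw [Int.toNat_of_nonneg hq0.le]; nlinarith [sq_nonneg p]
          · obtain ⟨h1, h2⟩ := hs rfl
            rw [hp] at h1 h2
            rw [hq] at h2
            have hp0 : 0 < p := (mul_pos_iff_of_pos_left hgz).mp h1
            rw [abs_mul, abs_of_pos hgz] at h2
            have hpq : |q| ≤ p := le_of_mul_le_mul_left h2 hgz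
            refine ⟨p.toNat, q, by omega, ?_, ?_, ?_, ?_, ?_, ?_⟩
            · rw [Int.toNat_of_nonneg hp0.le, abs_of_pos hp0]
            · rw [Int.toNat_of_nonneg hp0.le]; exact hpq
            · rw [Int.toNat_of_nonneg hp0.le]; exact abs_le.mp hpq
            · intro k
              simp only [slopeOf, if_true]
              rw [Int.toNat_of_nonneg hp0.le]
            · have : p ≤ g * p := by nlinarith
              omega
            · rw [Int.toNat_of_nonneg hp0.le]; nlinarith [sq_nonneg q]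
        set B : ℤ := p ^ 2 + q ^ 2 with hB
        set v : ℤ := 2 * (x * p + y * q) + g * B with hv
        set k : ℤ := -(v / B) with hk
        have hr1z : (1 : ℤ) ≤ r := by exact_mod_cast hr1
        have hB0 : 0 < B := by nlinarith
        have hvb : |v| ≤ 4 * N * r := by
          have e1 : v = (x + x') * p + (y + y') * q := by
            have hx' : x' = x + g * p := by omega
            have hy' : y' = y + g * q := by omega
            rw [hv, hx', hy', hB]; ring
          rw [e1]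
          calc |(x + x') * p + (y + y') * q| ≤ |(x + x') * p| + |(y + y') * q| := abs_add_le _ _
            _ = (x + x') * |p| + (y + y') * |q| := by
                rw [abs_mul, abs_mul, abs_of_nonneg (by omega : 0 ≤ x + x'),
                  abs_of_nonneg (by omega : 0 ≤ y + y')]
            _ ≤ (2 * N) * r + (2 * N) * r := by
                apply add_le_add
                · exact mul_le_mul (by omega) hrp (abs_nonneg _) (by positivity)
                · exact mul_le_mul (by omega) hrq (abs_nonneg _) (by positivity)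
            _ = 4 * N * r := by ring
        have hKB : (4 * N * r : ℤ) ≤ ((4 * N / r + 1 : ℕ) : ℤ) * B := by
          have e1 : 4 * N ≤ (4 * N / r + 1) * r := by
            have := Nat.lt_div_mul_add (a := 4 * N) (b := r) hr1
            rw [Nat.add_mul, one_mul]
            omega
          have e2 : (4 * N : ℤ) ≤ ((4 * N / r + 1 : ℕ) : ℤ) * r := by exact_mod_cast e1
          calc (4 * N * r : ℤ) ≤ (((4 * N / r + 1 : ℕ) : ℤ) * r) * r :=
                mul_le_mul_of_nonneg_right e2 (by positivity)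
            _ = ((4 * N / r + 1 : ℕ) : ℤ) * (r : ℤ) ^ 2 := by ring
            _ ≤ _ := mul_le_mul_of_nonneg_left hrA (by positivity)
        rw [abs_le] at hvb
        have hk1 : -((4 * N / r + 1 : ℕ) : ℤ) ≤ k ∧ k ≤ ((4 * N / r + 1 : ℕ) : ℤ) := by
          rw [hk]
          constructor
          · have : v / B ≤ ((4 * N / r + 1 : ℕ) : ℤ) := by
              apply Int.ediv_le_of_le_mul hB0
              linarith
            linarith
          · have : -((4 * N / r + 1 : ℕ) : ℤ) ≤ v / B := by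
              apply (Int.le_ediv_iff_mul_le hB0).mpr
              linarith
            linarith
        have hi : (s, r, t, k) ∈ dirIndex N := by
          rw [mem_dirIndex]
          exact ⟨⟨hr1, by simp only; omega⟩, ht, hk1⟩
        obtain ⟨_, hrN, hω, hlam⟩ := hidx _ hi
        rw [hslope] at hω hlam
        simp only at hω hlam
        have hdir : dir (s, r, t, k) = udir N δ p q ((k * (p ^ 2 + q ^ 2) : ℤ) + 1 / 2) := by
          simp only [dir, hslope]
        have hx' : x' = x + g * p := by omega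
        have hy' : y' = y + g * q := by omega
        refine ⟨path (s, r, t, k), Finset.mem_image_of_mem _ hi, ?_⟩
        have hcop' : IsCoprime (slopeOf (s, r, t, k)).1 (slopeOf (s, r, t, k)).2 := by
          rw [hslope]; exact hcop
        have hP := hpath2 (s, r, t, k) hi hcop'
        have hadj := fun X Y g1 g2 g3 g4 => adjacent Q p q hcop r hrle hrp hrq x y g
          (by exact_mod_cast hg0) k hk hlam hω a1 a2 a3 a4 (by omega) (by omega) (by omega)
          (by omega) X Y g1 g2 g3 g4 (dir (s, r, t, k)) hdir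
        have hnev : inner ℝ (gpt N δ gquad x' y') (dir (s, r, t, k)) ≠
            inner ℝ (gpt N δ gquad x y) (dir (s, r, t, k)) := by
          rw [hdir]
          apply inner_ne Q p q hcop r hrle hrp hrq k hlam hω x y x' y' a1 a2 a3 a4 b1 b2 b3 b4
          intro h
          simp only [Prod.mk.injEq] at h
          omega
        rcases lt_or_gt_of_ne hnev with h | h
        · apply IsEdgeOf.symm
          apply hP _ hPA' _ hPA h
          intro c hc
          obtain ⟨X, Y, ⟨g1, g2, g3, g4⟩, rfl⟩ := hA c hc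
          have := (hadj X Y g1 g2 g3 g4).2
          rw [← hx', ← hy'] at this
          exact this
        · apply hP _ hPA _ hPA' h
          intro c hc
          obtain ⟨X, Y, ⟨g1, g2, g3, g4⟩, rfl⟩ := hA c hc
          have := (hadj X Y g1 g2 g3 g4).1
          rw [← hx', ← hy'] at this
          exact this
      intro a ha b hb hab
      obtain ⟨x, y, ⟨a1, a2, a3, a4⟩, rfl⟩ := hA a ha
      obtain ⟨x', y', ⟨b1, b2, b3, b4⟩, rfl⟩ := hA b hb
      have hne : ¬ (x = x' ∧ y = y') := by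
        rintro ⟨rfl, rfl⟩; exact hab rfl
      rcases le_total |y' - y| |x' - x| with h | h
      · rcases lt_trichotomy (x' - x) 0 with hx | hx | hx
        · obtain ⟨ξ, hξ, hξ'⟩ := key true x' y' x y b1 b2 b3 b4 a1 a2 a3 a4 hb ha
            (fun _ => ⟨by omega, by
              rw [abs_of_neg hx] at h
              rw [abs_sub_comm]; omega⟩) (fun h => by cases h)
          exact ⟨ξ, hξ, hξ'.symm⟩
        · exfalso
          rw [hx, abs_zero] at h
          have := abs_nonneg (y' - y)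
          have : |y' - y| = 0 := le_antisymm h this
          rw [abs_eq_zero] at this
          apply hne; omega
        · exact key true x y x' y' a1 a2 a3 a4 b1 b2 b3 b4 ha hb
            (fun _ => ⟨by omega, by rw [abs_of_pos hx] at h; exact h⟩) (fun h => by cases h)
      · rcases lt_trichotomy (y' - y) 0 with hy | hy | hy
        · obtain ⟨ξ, hξ, hξ'⟩ := key false x' y' x y b1 b2 b3 b4 a1 a2 a3 a4 hb ha
            (fun h => by cases h) (fun _ => ⟨by omega, by
              rw [abs_of_neg hy] at h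
              rw [abs_sub_comm]; omega⟩)
          exact ⟨ξ, hξ, hξ'.symm⟩
        · exfalso
          rw [hy, abs_zero] at h
          have := abs_nonneg (x' - x)
          have : |x' - x| = 0 := le_antisymm h this
          rw [abs_eq_zero] at this
          apply hne; omega
        · exact key false x y x' y' a1 a2 a3 a4 b1 b2 b3 b4 ha hb
            (fun h => by cases h) (fun _ => ⟨by omega, by rw [abs_of_pos hy] at h; exact h⟩)
  exact (mc_le hcov).trans (Finset.card_image_le.trans card_dirIndex_le)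

end Pool.Agent.Helper30.MonoCover
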