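import Pool.Agent.Helper30.MonoCoverLower

/-!
# The weight of one monotone path
-/

namespace Pool.Agent.Helper30.MonoCover

/-- The line of slope `(p, q)` through `(x, y)`, and the position on it. -/
def lineId (b : Σ _ : ℕ × ℕ, ℕ × ℕ × ℕ) : ℕ × ℤ :=
  (b.2.1 % b.1.1, (b.2.2.1 : ℤ) - (b.2.1 / b.1.1 : ℕ) * b.1.2)

theorem gexp_line (N M : ℕ) (hM : 1 ≤ M) (x0 y0 : ℤ) (p q t : ℕ) :
    gexp N M (x0 + t * p) (y0 + t * q) = gexp N M x0 y0 * ((M : ℝ) ^ (N * p + q)) ^ t := by
  have hM0 : (M : ℝ) ≠ 0 := by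
    have : M ≠ 0 := by omega
    exact_mod_cast this
  unfold gexp
  rw [← pow_mul, ← zpow_natCast, ← zpow_add₀ hM0]
  congr 1
  push_cast
  ring

/-- A monotone path contains at most `8 L p` long edges of a given slope `(p, q)`. -/
theorem card_slope_le {N L M : ℕ} (δ : ℝ) (hL : 1 ≤ L)
    (hM : 3 * L + 1 ≤ M) (hN : 1 ≤ N) {ξ : List Plane} {u : Plane}
    (h : ξ.IsChain (fun v w => inner ℝ v u < inner ℝ w u))
    (s : ℕ × ℕ) (T : Finset (Σ _ : ℕ × ℕ, ℕ × ℕ × ℕ))
    (hTL : T ⊆ longEdges L) (hTs : ∀ b ∈ T, b.1 = s)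
    (hTe : ∀ b ∈ T, IsEdgeOf (eA N M δ b) (eB N M L δ b) ξ)
    (hinj : ∀ b ∈ T, ∀ b' ∈ T, ((eA N M δ b = eA N M δ b' ∧ eB N M L δ b = eB N M L δ b') ∨
      (eA N M δ b = eB N M L δ b' ∧ eB N M L δ b = eA N M δ b')) → b = b') :
    T.card ≤ 8 * (L * s.1) := by
  classical
  rcases T.eq_empty_or_nonempty with hemp | ⟨b0, hb0⟩
  · simp [hemp]
  have hs : s ∈ slopes L := by
    have := hTL hb0
    rw [mem_longEdges] at this
    rw [← hTs b0 hb0, mem_slopes]
    exact this.1
  rw [mem_slopes] at hs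
  obtain ⟨⟨s1, s2⟩, s3, s4⟩ := hs
  have himg : (T.image lineId).card ≤ 2 * (L * s.1) := by
    have hsub : T.image lineId ⊆ Finset.range s.1 ×ˢ Finset.Ioc (-(L : ℤ)) L := by
      intro z hz
      rw [Finset.mem_image] at hz
      obtain ⟨b, hb, rfl⟩ := hz
      have h1 := hTL hb
      rw [mem_longEdges] at h1
      have h2 := hTs b hb
      obtain ⟨h3, h4, h5, h6⟩ := h1
      rw [Finset.mem_product, Finset.mem_range, Finset.mem_Ioc]
      simp only [lineId]
      rw [h2]
      refine ⟨Nat.mod_lt _ (by omega), ?_, ?_⟩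
      · have : b.2.1 / s.1 * s.2 ≤ b.2.1 := by
          calc b.2.1 / s.1 * s.2 ≤ b.2.1 / s.1 * s.1 := Nat.mul_le_mul_left _ s3.le
            _ ≤ b.2.1 := Nat.div_mul_le_self _ _
        have h7 : ((b.2.1 / s.1 : ℕ) : ℤ) * s.2 ≤ b.2.1 := by exact_mod_cast this
        omega
      · have h7 : (0 : ℤ) ≤ ((b.2.1 / s.1 : ℕ) : ℤ) * s.2 := by positivity
        omega
    have := Finset.card_le_card hsub
    rw [Finset.card_product, Finset.card_range, Int.card_Ioc] at this
    have h8 : ((L : ℤ) - -(L : ℤ)).toNat = 2 * L := by omega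
    rw [h8] at this
    nlinarith
  have hfib : ∀ z ∈ T.image lineId, (T.filter (fun b => lineId b = z)).card ≤ 4 := by
    rintro ⟨x0, y0⟩ _
    -- the function along the line
    set α : ℝ := (s.1 : ℝ) * u 0 + s.2 * u 1 with hα
    set c : ℝ := (x0 : ℝ) * u 0 + y0 * u 1 with hc
    set β : ℝ := δ * gexp N M x0 y0 * (u 0 + N * u 1) with hβ
    set K : ℝ := (M : ℝ) ^ (N * s.1 + s.2) with hK
    let f : ℕ → ℝ := fun t => c + α * t + β * K ^ t
    have hKge : ((3 * L : ℕ) : ℝ) + 1 ≤ K := by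
      have h1 : ((3 * L : ℕ) : ℝ) + 1 ≤ M := by exact_mod_cast hM
      have h2 : (1 : ℝ) ≤ M := by
        have : 1 ≤ M := by omega
        exact_mod_cast this
      have h3 : (M : ℝ) ^ 1 ≤ K := by
        apply pow_le_pow_right₀ h2
        have : 1 ≤ N * s.1 := Nat.mul_pos hN s1
        omega
      rw [pow_one] at h3
      linarith
    let pos : (Σ _ : ℕ × ℕ, ℕ × ℕ × ℕ) → ℕ × ℕ := fun b => (b.2.1 / s.1, b.2.1 / s.1 + jOf L b)
    have hmem : ∀ b ∈ T.filter (fun b => lineId b = (x0, y0)), b ∈ T ∧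
        b.2.1 = x0 + b.2.1 / s.1 * s.1 ∧ x0 < s.1 ∧
        (b.2.2.1 : ℤ) = y0 + (b.2.1 / s.1 : ℕ) * s.2 ∧
        2 * L ≤ b.2.1 + jOf L b * s.1 ∧ b.2.1 + jOf L b * s.1 < 3 * L ∧ b.2.1 < L := by
      intro b hb
      rw [Finset.mem_filter] at hb
      obtain ⟨hbT, hbl⟩ := hb
      have h1 := hTL hbT
      rw [mem_longEdges] at h1
      have h2 := hTs b hbT
      obtain ⟨h3, h4, h5, h6⟩ := h1
      simp only [lineId, Prod.mk.injEq] at hbl
      rw [h2] at hbl h6
      have hst := steps_spec (i := b.2.2.2) s1 h4 h6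
      have hj : jOf L b = steps L s.1 b.2.1 b.2.2.2 := by rw [jOf, h2]
      rw [← hj] at hst
      refine ⟨hbT, ?_, ?_, ?_, hst.1, hst.2, h4⟩
      · rw [← hbl.1, mul_comm]; exact (Nat.mod_add_div _ _).symm
      · rw [← hbl.1]; exact Nat.mod_lt _ (by omega)
      · rw [← hbl.2]; ring
    have hval : ∀ b ∈ T.filter (fun b => lineId b = (x0, y0)),
        inner ℝ (eA N M δ b) u = f (pos b).1 ∧ inner ℝ (eB N M L δ b) u = f (pos b).2 := by
      intro b hb
      obtain ⟨hbT, e1, e2, e3, _, _, _⟩ := hmem b hb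
      have h2 := hTs b hbT
      have hM1 : 1 ≤ M := by omega
      have e1' : (b.2.1 : ℤ) = x0 + (b.2.1 / s.1 : ℕ) * s.1 := by exact_mod_cast e1
      constructor
      · rw [eA, inner_gpt, e3, e1', gexp_line N M hM1]
        simp only [f, pos, hα, hc, hβ, hK]
        generalize b.2.1 / s.1 = t
        push_cast
        ring
      · have e4 : (b.2.1 + jOf L b * b.1.1 : ℤ) = x0 + (b.2.1 / s.1 + jOf L b : ℕ) * s.1 := by
          rw [h2, Nat.cast_add]
          linear_combination e1'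
        have e5 : (b.2.2.1 + jOf L b * b.1.2 : ℤ) = y0 + (b.2.1 / s.1 + jOf L b : ℕ) * s.2 := by
          rw [h2, Nat.cast_add]
          linear_combination e3
        rw [eB, inner_gpt, e4, e5, gexp_line N M hM1]
        simp only [f, pos, hα, hc, hβ, hK]
        generalize b.2.1 / s.1 = t
        push_cast
        ring
    have hpos : Set.InjOn pos ((T.filter (fun b => lineId b = (x0, y0)) : Finset _) : Set _) := by
      intro b hb b' hb' hbb
      have hb := Finset.mem_coe.mp hb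
      have hb' := Finset.mem_coe.mp hb'
      obtain ⟨hbT, e1, e2, e3, _, _, _⟩ := hmem b hb
      obtain ⟨hbT', e1', e2', e3', _, _, _⟩ := hmem b' hb'
      apply hinj b hbT b' hbT'
      left
      have h2 := hTs b hbT
      have h2' := hTs b' hbT'
      simp only [pos, Prod.mk.injEq] at hbb
      obtain ⟨g1, g2⟩ := hbb
      have x1 : b.2.1 = b'.2.1 := by rw [e1, e1', g1]
      have y1 : b.2.2.1 = b'.2.2.1 := by
        have : (b.2.2.1 : ℤ) = b'.2.2.1 := by rw [e3, e3', g1]
        exact_mod_cast this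
      have j1 : jOf L b = jOf L b' := by omega
      constructor
      · rw [eA, eA, x1, y1]
      · rw [eB, eB, x1, y1, j1, h2, h2']
    have hcard : (T.filter (fun b => lineId b = (x0, y0))).card =
        ((T.filter (fun b => lineId b = (x0, y0))).image pos).card :=
      (Finset.card_image_of_injOn hpos).symm
    rw [hcard]
    apply line_bound (3 * L) ((2 * L - 1 - x0) / s.1) K c α β hKge (by omega) f (fun t => rfl)
    · intro e he
      rw [Finset.mem_image] at he
      obtain ⟨b, hb, rfl⟩ := he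
      obtain ⟨hbT, e1, e2, e3, e4, e5, e6⟩ := hmem b hb
      simp only [pos]
      refine ⟨?_, ?_, ?_⟩
      · rw [Nat.le_div_iff_mul_le (by omega)]
        omega
      · rw [Nat.div_lt_iff_lt_mul (by omega), Nat.add_mul]
        omega
      · have : (b.2.1 / s.1 + jOf L b) * 1 ≤ (b.2.1 / s.1 + jOf L b) * s.1 :=
          Nat.mul_le_mul_left _ s1
        rw [Nat.add_mul (b.2.1 / s.1) (jOf L b) s.1] at this
        omega
    · intro e he
      rw [Finset.mem_image] at he
      obtain ⟨b, hb, rfl⟩ := he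
      have hv := hval b hb
      rw [← hv.1, ← hv.2]
      exact edge_ne h (hTe b (hmem b hb).1)
    · intro e he e' he' hee
      rw [Finset.mem_image] at he he'
      obtain ⟨b, hb, rfl⟩ := he
      obtain ⟨b', hb', rfl⟩ := he'
      have hv := hval b hb
      have hv' := hval b' hb'
      rw [← hv.1, ← hv.2, ← hv'.1, ← hv'.2]
      apply edges_disj h (hTe b (hmem b hb).1) (hTe b' (hmem b' hb').1)
      intro hcon
      apply hee
      have := hinj b (hmem b hb).1 b' (hmem b' hb').1 hcon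
      rw [this]
  have := Finset.card_le_mul_card_image T 4 hfib
  omega

end Pool.Agent.Helper30.MonoCover
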